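import Pool.Agent.Lib.MP_07d80f_al.Cohom

set_option autoImplicit false

namespace Pool.Agent.Lib.MP_07d80f_al

open CategoryTheory Limits

variable {R : Type} [CommRing R]

/-- The product of the coordinate functionals, an `m`-cochain of `ℤ^m`. -/
def cupCochain (R : Type) [CommRing R] (m : ℕ) (g : Fin m → Multiplicative (Fin m → ℤ)) : R :=
  ∏ l : Fin m, (((g l).toAdd l : ℤ) : R)

lemma d_trivial {G : Type} [Group G] (m : ℕ) (f : (Fin m → G) → R) (g : Fin (m + 1) → G) :
    inhomogeneousCochains.d (Rep.trivial R G R) m f g =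
      f (fun i => g i.succ) +
        ∑ j : Fin (m + 1), (-1 : R) ^ ((j : ℕ) + 1) * f (Fin.contractNth j (· * ·) g) := rfl

lemma contractNth_last {G : Type} [Group G] (m : ℕ) (g : Fin (m + 1) → G) :
    Fin.contractNth (Fin.last m) (· * ·) g = fun i => g i.castSucc := by
  funext l
  exact Fin.contractNth_apply_of_lt _ _ _ _ (by simp)

lemma cup_cocycle (m : ℕ) :
    inhomogeneousCochains.d (Rep.trivial R (Multiplicative (Fin m → ℤ)) R) m
      (cupCochain R m) = 0 := by
  funext g
  rw [d_trivial]
  set a : Fin (m + 1) → R := fun i => cupCochain R m (fun l => g (i.succAbove l)) with ha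
  have h0 : cupCochain R m (fun i => g i.succ) = a 0 := by simp [ha]
  have hl : cupCochain R m (Fin.contractNth (Fin.last m) (· * ·) g) = a (Fin.last m) := by
    rw [contractNth_last]; simp [ha]
  have hm : ∀ j : Fin m, cupCochain R m (Fin.contractNth j.castSucc (· * ·) g) =
      a j.succ + a j.castSucc := by
    intro j
    simp only [ha, cupCochain]
    rw [← Finset.mul_prod_erase _ _ (Finset.mem_univ j),
      ← Finset.mul_prod_erase _ _ (Finset.mem_univ j),
      ← Finset.mul_prod_erase _ _ (Finset.mem_univ j)]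
    have e1 : ∀ l ∈ Finset.univ.erase j,
        (((Fin.contractNth j.castSucc (· * ·) g l).toAdd l : ℤ) : R) =
          (((g (j.succ.succAbove l)).toAdd l : ℤ) : R) := by
      intro l hl
      have hne : l ≠ j := (Finset.mem_erase.1 hl).1
      rcases lt_or_gt_of_ne hne with h | h
      · rw [Fin.contractNth_apply_of_lt _ _ _ _ (by simpa using h),
          Fin.succAbove_of_castSucc_lt _ _ (by rw [Fin.castSucc_lt_succ_iff]; exact h.le)]
      · rw [Fin.contractNth_apply_of_gt _ _ _ _ (by simpa using h),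
          Fin.succAbove_of_le_castSucc _ _ (by rw [Fin.succ_le_castSucc_iff]; exact h)]
    have e2 : ∀ l ∈ Finset.univ.erase j,
        (((g (j.castSucc.succAbove l)).toAdd l : ℤ) : R) =
          (((g (j.succ.succAbove l)).toAdd l : ℤ) : R) := by
      intro l hl
      have hne : l ≠ j := (Finset.mem_erase.1 hl).1
      rcases lt_or_gt_of_ne hne with h | h
      · rw [Fin.succAbove_of_castSucc_lt _ _ (by simpa using h),
          Fin.succAbove_of_castSucc_lt _ _ (by rw [Fin.castSucc_lt_succ_iff]; exact h.le)]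
      · rw [Fin.succAbove_of_le_castSucc _ _ (by simpa using h.le),
          Fin.succAbove_of_le_castSucc _ _ (by rw [Fin.succ_le_castSucc_iff]; exact h)]
    rw [Finset.prod_congr rfl e1, Finset.prod_congr rfl e2,
      Fin.contractNth_apply_of_eq _ _ _ _ (by simp), Fin.succAbove_succ_self,
      Fin.succAbove_castSucc_self]
    simp only [toAdd_mul, Pi.add_apply, Int.cast_add]
    ring
  rw [Fin.sum_univ_castSucc, h0, hl]
  simp only [hm]
  have s1 := Fin.sum_univ_succ (fun i : Fin (m + 1) => (-1 : R) ^ (i : ℕ) * a i)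
  have s2 := Fin.sum_univ_castSucc (fun i : Fin (m + 1) => (-1 : R) ^ (i : ℕ) * a i)
  have s3 : ∑ j : Fin m, (-1 : R) ^ ((j.castSucc : ℕ) + 1) * (a j.succ + a j.castSucc) =
      ∑ j : Fin m, (-1 : R) ^ (j.succ : ℕ) * a j.succ -
        ∑ j : Fin m, (-1 : R) ^ (j.castSucc : ℕ) * a j.castSucc := by
    rw [← Finset.sum_sub_distrib]
    refine Finset.sum_congr rfl fun j _ => ?_
    simp only [Fin.val_castSucc, Fin.val_succ]
    ring
  rw [s3]
  simp only [Fin.val_zero, pow_zero, one_mul, Fin.val_last] at s1 s2 ⊢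
  change _ = (0 : R)
  linear_combination s2 - s1

/-- The alternating evaluation of a cochain on a family of group elements. -/
def altSum {G : Type} {m : ℕ} (e : Fin m → G) (F : (Fin m → G) → R) : R :=
  ∑ σ : Equiv.Perm (Fin m), ((Equiv.Perm.sign σ : ℤ) : R) * F (fun i => e (σ i))

lemma altSum_d {G : Type} [CommGroup G] (k : ℕ) (e : Fin (k + 1) → G) (h : (Fin k → G) → R) :
    altSum e (inhomogeneousCochains.d (Rep.trivial R G R) k h) = 0 := by
  have hd : (inhomogeneousCochains.d (Rep.trivial R G R) k h : (Fin (k + 1) → G) → R) =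
      fun g => h (fun i => g i.succ) +
        ∑ j : Fin (k + 1), (-1 : R) ^ ((j : ℕ) + 1) * h (Fin.contractNth j (· * ·) g) := rfl
  rw [hd]
  unfold altSum
  simp only [Fin.sum_univ_castSucc, contractNth_last, mul_add, Finset.sum_add_distrib,
    Finset.mul_sum]
  have hmid : ∑ σ : Equiv.Perm (Fin (k + 1)), ∑ j : Fin k, ((Equiv.Perm.sign σ : ℤ) : R) *
      ((-1 : R) ^ ((j.castSucc : ℕ) + 1) *
        h (Fin.contractNth j.castSucc (· * ·) fun i => e (σ i))) = 0 := by
    rw [Finset.sum_comm]
    refine Finset.sum_eq_zero fun j _ => ?_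
    have hne : j.castSucc ≠ j.succ := (Fin.castSucc_lt_succ (i := j)).ne
    refine Finset.sum_involution (fun σ _ => σ * Equiv.swap j.castSucc j.succ) ?_ ?_ ?_ ?_
    · intro σ _
      have : (Fin.contractNth j.castSucc (· * ·)
          fun i => e ((σ * Equiv.swap j.castSucc j.succ) i)) =
          Fin.contractNth j.castSucc (· * ·) fun i => e (σ i) := by
        funext l
        rcases lt_trichotomy l j with hl | hl | hl
        · rw [Fin.contractNth_apply_of_lt _ _ _ _ (by simpa using hl),
            Fin.contractNth_apply_of_lt _ _ _ _ (by simpa using hl), Equiv.Perm.mul_apply,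
            Equiv.swap_apply_of_ne_of_ne]
          · exact (Fin.castSucc_lt_castSucc_iff.2 hl).ne
          · exact (Fin.castSucc_lt_succ_iff.2 hl.le).ne
        · subst hl
          rw [Fin.contractNth_apply_of_eq _ _ _ _ (by simp),
            Fin.contractNth_apply_of_eq _ _ _ _ (by simp)]
          simp [mul_comm]
        · rw [Fin.contractNth_apply_of_gt _ _ _ _ (by simpa using hl),
            Fin.contractNth_apply_of_gt _ _ _ _ (by simpa using hl), Equiv.Perm.mul_apply,
            Equiv.swap_apply_of_ne_of_ne]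
          · exact (Fin.castSucc_lt_succ_iff.2 hl.le).ne'
          · exact (Fin.succ_lt_succ_iff.2 hl).ne'
      rw [this]
      simp [Equiv.Perm.sign_swap hne]
    · intro σ _ _ hσ
      have := congrArg (fun τ : Equiv.Perm (Fin (k + 1)) => τ j.castSucc) hσ
      simp only [Equiv.Perm.mul_apply, Equiv.swap_apply_left, EmbeddingLike.apply_eq_iff_eq]
        at this
      exact hne this.symm
    · intro σ _
      exact Finset.mem_univ _
    · intro σ _
      simp [mul_assoc]
  have hend : ∑ σ : Equiv.Perm (Fin (k + 1)), ((Equiv.Perm.sign σ : ℤ) : R) *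
      h (fun i => e (σ i.succ)) =
      ∑ σ : Equiv.Perm (Fin (k + 1)), ((Equiv.Perm.sign σ : ℤ) : R) *
        ((-1 : R) ^ k * h (fun i => e (σ i.castSucc))) := by
    rw [← Equiv.sum_comp (Equiv.mulRight (finRotate (k + 1))) (fun σ : Equiv.Perm (Fin (k + 1)) =>
      ((Equiv.Perm.sign σ : ℤ) : R) * ((-1 : R) ^ k * h (fun i => e (σ i.castSucc))))]
    refine Finset.sum_congr rfl fun σ _ => ?_
    have h1 : ∀ i : Fin k, finRotate (k + 1) i.castSucc = i.succ := by
      intro i
      rw [finRotate_apply, Fin.coeSucc_eq_succ]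
    simp only [Equiv.coe_mulRight, Equiv.Perm.mul_apply, h1, map_mul, sign_finRotate]
    have h2 : ((-1 : R) ^ k) * (-1 : R) ^ k = 1 := by rw [← mul_pow]; simp
    push_cast
    linear_combination (-((Equiv.Perm.sign σ : ℤ) : R) * h (fun i => e (σ i.succ))) * h2
  rw [hmid, hend, zero_add, ← Finset.sum_add_distrib]
  refine Finset.sum_eq_zero fun σ _ => ?_
  simp only [Fin.val_last]
  ring

lemma altSum_cup (m : ℕ) :
    altSum (fun i : Fin m => Multiplicative.ofAdd (Pi.single i (1 : ℤ))) (cupCochain R m) = 1 := by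
  have h := Matrix.det_apply' (1 : Matrix (Fin m) (Fin m) R)
  rw [Matrix.det_one] at h
  rw [h]
  unfold altSum cupCochain
  refine Finset.sum_congr rfl fun σ _ => ?_
  congr 1
  refine Finset.prod_congr rfl fun l _ => ?_
  simp only [toAdd_ofAdd, Pi.single_apply, Matrix.one_apply]
  by_cases hl : σ l = l
  · simp [hl]
  · simp [hl, Ne.symm hl]

lemma not_isZero_Zn [Nontrivial R] (k : ℕ) :
    ¬ IsZero (groupCohomology (Rep.trivial R (Multiplicative (Fin (k + 1) → ℤ)) R) (k + 1)) := by
  rw [isZero_succ_iff]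
  intro H
  obtain ⟨h, hh⟩ := H (cupCochain R (k + 1)) (cup_cocycle (k + 1))
  have h1 := altSum_d k (fun i : Fin (k + 1) => Multiplicative.ofAdd (Pi.single i (1 : ℤ))) h
  rw [hh, altSum_cup] at h1
  exact one_ne_zero h1

/-- A group containing `ℤ^(k+1)` has non-trivial cohomology in degree `k+1`. -/
lemma exists_not_isZero_of_Zn [Nontrivial R] {G : Type} [Group G] (k : ℕ) (H : Subgroup G)
    (e : H ≃* Multiplicative (Fin (k + 1) → ℤ)) :
    ∃ M : Rep.{0} R G, ¬ IsZero (groupCohomology M (k + 1)) := by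
  refine ⟨Rep.coind H.subtype (Rep.trivial R H R), fun hz => not_isZero_Zn (R := R) k ?_⟩
  have h1 := hz.of_iso (groupCohomology.coindIso (Rep.trivial R H R) (k + 1)).symm
  refine h1.of_iso (groupCohomology.mapIso (B := Rep.trivial R _ R) (A := Rep.trivial R H R)
    e.symm (LinearEquiv.refl _ _) ?_ (k + 1))
  intro g
  ext
  simp

end Pool.Agent.Lib.MP_07d80f_al
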