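import Pool.Agent.Lib.MP_07d80f_al.Tree
import Pool.Agent.Lib.MP_07d80f_al.Zn

set_option autoImplicit false

namespace Pool.Agent.Lib.MP_07d80f_al

open CategoryTheory

variable {S : Type} {P : SemigroupPresentation S}

/-- The prefunctor from the Squier graph to the universal group. -/
def toUPre (P : SemigroupPresentation S) : Vertex P ⥤q SingleObj (U P) where
  obj _ := SingleObj.star _
  map e := gen e.1.a e.1.r e.1.b

lemma lift_of_map {x y : Vertex P} (e : x ⟶ y) :
    (Quiver.FreeGroupoid.lift (toUPre P)).map ((Quiver.FreeGroupoid.of (Vertex P)).map e) =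
      gen e.1.a e.1.r e.1.b := by
  change gen e.1.a e.1.r e.1.b * 1 = _
  rw [mul_one]

/-- The functor from the fundamental groupoid to the universal group. -/
noncomputable def toU (P : SemigroupPresentation S) : SquierGroupoid P ⥤ SingleObj (U P) :=
  CategoryTheory.Quotient.lift (SquareRel P) (Quiver.FreeGroupoid.lift (toUPre P)) (by
    rintro _ _ _ _ ⟨a, b, c, r, s, e₁, e₂, e₃, e₄, h₁, h₂, h₃, h₄⟩
    rw [Functor.map_comp, Functor.map_comp, lift_of_map, lift_of_map, lift_of_map, lift_of_map,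
      h₁, h₂, h₃, h₄]
    exact gen_square a b c r s)

/-- The value in the universal group of a morphism of the fundamental groupoid. -/
noncomputable def val {X Y : SquierGroupoid P} (f : X ⟶ Y) : U P := (toU P).map f

lemma val_id (X : SquierGroupoid P) : val (𝟙 X) = 1 := (toU P).map_id X

lemma val_comp {X Y Z : SquierGroupoid P} (f : X ⟶ Y) (g : Y ⟶ Z) :
    val (f ≫ g) = val g * val f := (toU P).map_comp f g

lemma val_inv {X Y : SquierGroupoid P} (f : X ⟶ Y) : val (Groupoid.inv f) = (val f)⁻¹ := by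
  rw [eq_inv_iff_mul_eq_one, ← val_comp, Groupoid.comp_inv, val_id]

/-- The morphism of the fundamental groupoid given by an edge. -/
def edgeMor {x y : Vertex P} (e : x ⟶ y) : x.toObj ⟶ y.toObj :=
  (CategoryTheory.Quotient.functor (SquareRel P)).map ((Quiver.FreeGroupoid.of (Vertex P)).map e)

lemma val_edgeMor {x y : Vertex P} (e : x ⟶ y) : val (edgeMor e) = gen e.1.a e.1.r e.1.b :=
  lift_of_map e

lemma mor_induction {x : Vertex P} {C : ∀ {y : Vertex P}, (x.toObj ⟶ y.toObj) → Prop}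
    (h0 : C (𝟙 x.toObj))
    (h1 : ∀ {y z : Vertex P} (f : x.toObj ⟶ y.toObj) (e : y ⟶ z), C f → C (f ≫ edgeMor e))
    (h2 : ∀ {y z : Vertex P} (f : x.toObj ⟶ y.toObj) (e : z ⟶ y), C f →
      C (f ≫ Groupoid.inv (edgeMor e)))
    {y : Vertex P} (f : x.toObj ⟶ y.toObj) : C f := by
  have key : ∀ (y : Quiver.Symmetrify (Vertex P))
      (p : @Quiver.Path (Quiver.Symmetrify (Vertex P)) _ x y),
      C (y := y) (Quot.mk _ (Quot.mk _ p)) := by
    intro y p
    induction p with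
    | nil => exact h0
    | cons p e ih =>
      rcases e with e | e
      · exact h1 _ e ih
      · exact h2 _ e ih
  obtain ⟨⟨p⟩⟩ := f
  exact key y p

lemma hom_val {x y : Vertex P} (f : x.toObj ⟶ y.toObj) : Hom x.word (val f) y.word := by
  induction f using mor_induction with
  | h0 => rw [val_id]; exact Hom.refl
  | h1 f e ih =>
    exact Hom.step e.1.a ⟨e.1.r, true⟩ e.1.b ih e.2.1.symm e.2.2.symm
      (by rw [val_comp, val_edgeMor, ed_true])
  | h2 f e ih =>
    exact Hom.step e.1.a ⟨e.1.r, false⟩ e.1.b ih e.2.2.symm e.2.1.symm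
      (by rw [val_comp, val_inv, val_edgeMor, ed_false])

lemma Vertex.ext' {x y : Vertex P} (h : x.word = y.word) : x = y := by
  cases x; cases y; simpa using h

lemma exists_mor {x : Vertex P} {g : U P} {z : List S} (h : Hom x.word g z) :
    ∃ (y : Vertex P) (f : x.toObj ⟶ y.toObj), y.word = z ∧ val f = g := by
  induction h with
  | refl => exact ⟨x, 𝟙 _, rfl, val_id _⟩
  | @step g g' y z a ρ b h hy hz hg ih =>
    obtain ⟨y', f, h1, h2⟩ := ih
    have hz' : z ≠ [] := by simp [hz, ρ.tgt_ne_nil]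
    obtain ⟨r, _ | _⟩ := ρ
    · let e : (⟨z, hz'⟩ : Vertex P) ⟶ y' := ⟨⟨a, r, b⟩, hz.symm, (h1.trans hy).symm⟩
      exact ⟨⟨z, hz'⟩, f ≫ Groupoid.inv (edgeMor e), rfl,
        by rw [val_comp, val_inv, val_edgeMor, h2, hg, ed_false]⟩
    · let e : y' ⟶ (⟨z, hz'⟩ : Vertex P) := ⟨⟨a, r, b⟩, (h1.trans hy).symm, hz.symm⟩
      exact ⟨⟨z, hz'⟩, f ≫ edgeMor e, rfl, by rw [val_comp, val_edgeMor, h2, hg, ed_true]⟩

open Classical in
/-- Retraction of the fundamental groupoid onto a vertex group. -/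
noncomputable def ret (w : SquierGroupoid P) {X Y : SquierGroupoid P} (f : X ⟶ Y) : End w :=
  if h : Nonempty (w ⟶ X) then
    Classical.choice h ≫ f ≫ Groupoid.inv (Classical.choice (h.map (· ≫ f)))
  else 1

lemma ret_comp (w : SquierGroupoid P) {X Y Z : SquierGroupoid P} (f : X ⟶ Y) (g : Y ⟶ Z) :
    ret w (f ≫ g) = ret w g * ret w f := by
  unfold ret
  by_cases h : Nonempty (w ⟶ X)
  · rw [dif_pos h, dif_pos h, dif_pos (h.map (· ≫ f))]
    simp
  · rw [dif_neg h, dif_neg h, dif_neg (fun h' => h (h'.map (· ≫ Groupoid.inv f))), mul_one]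

lemma ret_id (w X : SquierGroupoid P) : ret w (𝟙 X) = 1 := by
  unfold ret
  split_ifs with h
  · simp
  · rfl

lemma ret_inv (w : SquierGroupoid P) {X Y : SquierGroupoid P} (f : X ⟶ Y) :
    ret w (Groupoid.inv f) = (ret w f)⁻¹ := by
  rw [eq_inv_iff_mul_eq_one, ← ret_comp, Groupoid.comp_inv, ret_id]

lemma ret_edgeMor_congr (w : SquierGroupoid P) {x y x' y' : Vertex P} (e : x ⟶ y) (e' : x' ⟶ y')
    (h : e.1 = e'.1) : ret w (edgeMor e) = ret w (edgeMor e') := by
  obtain rfl : x = x' := Vertex.ext' (by rw [← e.2.1, ← e'.2.1, h])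
  obtain rfl : y = y' := Vertex.ext' (by rw [← e.2.2, ← e'.2.2, h])
  rw [Subtype.ext h]

/-- An edge as an arrow of the Squier graph. -/
def Edge.arrow (e : Edge P) :
    (⟨e.src, by simp [Edge.src, P.left_ne_nil _ e.r.2]⟩ : Vertex P) ⟶
      ⟨e.tgt, by simp [Edge.tgt, P.right_ne_nil _ e.r.2]⟩ := ⟨e, rfl, rfl⟩

/-- The retraction as a homomorphism on the universal group. -/
noncomputable def retU (w : SquierGroupoid P) : U P →* End w :=
  liftU (fun a r b => ret w (edgeMor (Edge.arrow ⟨a, r, b⟩))) (by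
    intro a b c r s
    let x : Vertex P := ⟨a ++ r.1.1 ++ b ++ s.1.1 ++ c, by simp [P.left_ne_nil _ r.2]⟩
    let y : Vertex P := ⟨a ++ r.1.2 ++ b ++ s.1.1 ++ c, by simp [P.right_ne_nil _ r.2]⟩
    let y' : Vertex P := ⟨a ++ r.1.1 ++ b ++ s.1.2 ++ c, by simp [P.left_ne_nil _ r.2]⟩
    let z : Vertex P := ⟨a ++ r.1.2 ++ b ++ s.1.2 ++ c, by simp [P.right_ne_nil _ r.2]⟩
    let e₁ : x ⟶ y := ⟨⟨a, r, b ++ s.1.1 ++ c⟩, by simp [x, Edge.src], by simp [y, Edge.tgt]⟩
    let e₂ : y ⟶ z := ⟨⟨a ++ r.1.2 ++ b, s, c⟩, rfl, rfl⟩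
    let e₃ : x ⟶ y' := ⟨⟨a ++ r.1.1 ++ b, s, c⟩, rfl, rfl⟩
    let e₄ : y' ⟶ z := ⟨⟨a, r, b ++ s.1.2 ++ c⟩, by simp [y', Edge.src], by simp [z, Edge.tgt]⟩
    have h : edgeMor e₁ ≫ edgeMor e₂ = edgeMor e₃ ≫ edgeMor e₄ := by
      have := CategoryTheory.Quotient.sound (SquareRel P)
        (SquareRel.square a b c r s e₁ e₂ e₃ e₄ rfl rfl rfl rfl)
      rw [Functor.map_comp, Functor.map_comp] at this
      exact this
    have k₁ := ret_edgeMor_congr w (Edge.arrow ⟨a, r, b ++ s.1.1 ++ c⟩) e₁ rfl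
    have k₂ := ret_edgeMor_congr w (Edge.arrow ⟨a ++ r.1.2 ++ b, s, c⟩) e₂ rfl
    have k₃ := ret_edgeMor_congr w (Edge.arrow ⟨a ++ r.1.1 ++ b, s, c⟩) e₃ rfl
    have k₄ := ret_edgeMor_congr w (Edge.arrow ⟨a, r, b ++ s.1.2 ++ c⟩) e₄ rfl
    simp only [k₁, k₂, k₃, k₄]
    rw [← ret_comp, ← ret_comp, h])

lemma retU_val (w : SquierGroupoid P) {x y : Vertex P} (f : x.toObj ⟶ y.toObj) :
    retU w (val f) = ret w f := by
  induction f using mor_induction with
  | h0 => rw [val_id, map_one, ret_id]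
  | h1 f e ih =>
    rw [val_comp, map_mul, ih, ret_comp, val_edgeMor, retU, liftU_gen]
    congr 1
    exact ret_edgeMor_congr w _ _ rfl
  | h2 f e ih =>
    rw [val_comp, map_mul, ih, ret_comp, val_inv, val_edgeMor, map_inv, retU, liftU_gen, ret_inv]
    congr 2
    exact ret_edgeMor_congr w _ _ rfl

/-- The diagram group maps to the loop group in the universal group. -/
noncomputable def toD (w : Vertex P) : DiagramGroup P w →* D P w.word where
  toFun f := ⟨val f, hom_val f⟩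
  map_one' := Subtype.ext (val_id _)
  map_mul' f g := Subtype.ext (val_comp g f)

lemma toD_bijective (w : Vertex P) : Function.Bijective (toD w) := by
  constructor
  · rw [injective_iff_map_eq_one]
    intro f hf
    have h1 : val f = 1 := congrArg Subtype.val hf
    have h2 := retU_val w.toObj f
    rw [h1, map_one, ret, dif_pos ⟨𝟙 _⟩] at h2
    have h3 := congrArg (fun k : End w.toObj =>
      Groupoid.inv (Classical.choice ⟨𝟙 w.toObj⟩) ≫ k ≫ Classical.choice ⟨𝟙 w.toObj⟩) h2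
    simpa using h3.symm
  · rintro ⟨g, hg⟩
    obtain ⟨y, f, h1, h2⟩ := exists_mor (x := w) hg
    obtain rfl : y = w := Vertex.ext' h1
    exact ⟨f, Subtype.ext h2⟩

/-- The diagram group is the loop group in the universal group. -/
noncomputable def diagramEquiv (w : Vertex P) : DiagramGroup P w ≃* D P w.word :=
  MulEquiv.ofBijective (toD w) (toD_bijective w)

lemma ad_le_cd (G : Type) [Group G] : ad G ≤ cd G := by
  unfold ad cd
  refine iSup₂_le fun n hn => ?_
  obtain ⟨H, ⟨e⟩⟩ := hn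
  cases n with
  | zero => exact zero_le
  | succ k =>
    obtain ⟨M, hM⟩ := exists_not_isZero_of_Zn (R := ℤ) k H e
    refine le_iSup₂_of_le (k + 1) ⟨M, ?_⟩ le_rfl
    rwa [ModuleCat.isZero_iff_subsingleton, not_subsingleton_iff_nontrivial] at hM

lemma cd_le_of_cdLE {G : Type} [Group G] {n : ℕ} (h : CdLE ℤ G n) : cd G ≤ n := by
  unfold cd
  refine iSup₂_le fun k hk => ?_
  obtain ⟨M, hM⟩ := hk
  by_contra hlt
  have h1 := h M k (by exact_mod_cast not_le.1 hlt)
  rw [ModuleCat.isZero_iff_subsingleton, ← not_nontrivial_iff_subsingleton] at h1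
  exact h1 hM

lemma le_ad_of_hasZ {G : Type} [Group G] {w : List S} (e : G ≃* D P w) {k : ℕ} (h : HasZ P w k) :
    (k : ℕ∞) ≤ ad G := by
  obtain ⟨f, h1, h2, h3⟩ := h
  let F : Multiplicative (Fin k → ℤ) →* D P w := MonoidHom.mk'
    (fun v => ⟨f v.toAdd, h2 _⟩) (fun v v' => Subtype.ext (h1 _ _))
  have hF : Function.Injective (e.symm.toMonoidHom.comp F) := by
    rw [injective_iff_map_eq_one]
    intro v hv
    have h4 : F v = 1 := e.symm.injective (hv.trans (map_one _).symm)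
    exact h3 _ (congrArg Subtype.val h4)
  unfold ad
  exact le_iSup₂_of_le k ⟨_, ⟨(MonoidHom.ofInjective hF).symm⟩⟩ le_rfl

theorem cd_eq_ad (G : Type) [Group G] (hG : IsDiagramGroup G) : cd G = ad G := by
  obtain ⟨S, P, w, ⟨e⟩⟩ := hG
  refine le_antisymm ?_ (ad_le_cd G)
  have e' := e.trans (diagramEquiv w)
  rcases eq_or_ne (ad G) ⊤ with h | h
  · rw [h]; exact le_top
  · obtain ⟨n, hn⟩ := ENat.ne_top_iff_exists.1 h
    rw [← hn]
    refine cd_le_of_cdLE (CdLE.of_mulEquiv e' (cdLE_of_not_hasZ n w.word fun hz => ?_))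
    have h1 := le_ad_of_hasZ e' hz
    rw [← hn] at h1
    exact absurd (by exact_mod_cast h1 : n + 1 ≤ n) (by omega)

end Pool.Agent.Lib.MP_07d80f_al
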