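import Mathlib

set_option autoImplicit false

namespace Pool.Agent.Lib.MP_07d80f_al

open CategoryTheory Limits

/-- Vanishing of all cohomology above degree `n`. -/
def CdLE (R : Type) [CommRing R] (G : Type) [Group G] (n : ℕ) : Prop :=
  ∀ (M : Rep.{0} R G) (k : ℕ), n < k → IsZero (groupCohomology M k)

section General

variable {R : Type} [CommRing R] {G : Type} [Group G]

lemma isZero_succ_iff (A : Rep.{0} R G) (k : ℕ) :
    IsZero (groupCohomology A (k + 1)) ↔
      ∀ f : (Fin (k + 1) → G) → A, inhomogeneousCochains.d A (k + 1) f = 0 →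
        ∃ h : (Fin k → G) → A, inhomogeneousCochains.d A k h = f := by
  unfold groupCohomology
  rw [← HomologicalComplex.exactAt_iff_isZero_homology,
    HomologicalComplex.exactAt_iff' _ k (k + 1) (k + 2) (by simp) (by simp),
    ShortComplex.moduleCat_exact_iff]
  have h1 := groupCohomology.inhomogeneousCochains.d_def A k
  have h2 := groupCohomology.inhomogeneousCochains.d_def A (k + 1)
  rw [← h1, ← h2]
  rfl

lemma d_comp {A B : Rep.{0} R G} (φ : A ⟶ B) (k : ℕ) (h : (Fin k → G) → A) :
    inhomogeneousCochains.d B k (fun g => φ.hom (h g)) =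
      fun g => φ.hom (inhomogeneousCochains.d A k h g) := by
  funext g
  simp [inhomogeneousCochains.d_hom_apply, Rep.hom_comm_apply, map_sum]

/-- Cohomology of a product vanishes if that of all factors does. -/
lemma isZero_of_prod {ι : Type} (A : Rep.{0} R G) (B : ι → Rep.{0} R G) (π : ∀ i, A ⟶ B i)
    (hinj : ∀ a : A, (∀ i, (π i).hom a = 0) → a = 0)
    (hsurj : ∀ b : ∀ i, B i, ∃ a : A, ∀ i, (π i).hom a = b i) (k : ℕ)
    (hB : ∀ i, IsZero (groupCohomology (B i) (k + 1))) :
    IsZero (groupCohomology A (k + 1)) := by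
  rw [isZero_succ_iff]
  intro f hf
  have h1 : ∀ i, ∃ h : (Fin k → G) → B i,
      inhomogeneousCochains.d (B i) k h = fun g => (π i).hom (f g) := by
    intro i
    apply (isZero_succ_iff (B i) k).1 (hB i)
    rw [d_comp, hf]
    funext g
    exact map_zero _
  choose h hh using h1
  choose a ha using hsurj
  refine ⟨fun g => a (fun i => h i g), ?_⟩
  funext g
  rw [← sub_eq_zero]
  apply hinj
  intro i
  have h2 := congrFun (d_comp (π i) k (fun g => a (fun i => h i g))) g
  simp only [ha] at h2
  rw [map_sub, ← h2, hh i, sub_self]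

lemma CdLE.of_mulEquiv {H : Type} [Group H] {n : ℕ} (e : G ≃* H) (h : CdLE R H n) : CdLE R G n := by
  intro M k hk
  have := h (Rep.res e.symm.toMonoidHom M) k hk
  refine this.of_iso (groupCohomology.mapIso (B := M) (A := Rep.res e.symm.toMonoidHom M) e
    (LinearEquiv.refl _ _) ?_ k)
  intro g
  ext x
  simp

lemma CdLE.subgroup {n : ℕ} (h : CdLE R G n) (S : Subgroup G) : CdLE R S n := by
  intro M k hk
  exact (h _ k hk).of_iso (groupCohomology.coindIso M k).symm

lemma CdLE.of_injective {H : Type} [Group H] {n : ℕ} (f : G →* H) (hf : Function.Injective f)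
    (h : CdLE R H n) : CdLE R G n :=
  CdLE.of_mulEquiv (MonoidHom.ofInjective hf) (h.subgroup f.range)

lemma CdLE.of_subsingleton [Subsingleton G] (n : ℕ) : CdLE R G n := by
  intro M k hk
  obtain ⟨j, rfl⟩ : ∃ j, k = j + 1 := ⟨k - 1, by omega⟩
  exact isZero_groupCohomology_succ_of_subsingleton M j

/-- The representation on maps `X → M` for a `G`-set `X`. -/
noncomputable def mapsRepr (X : Type) [MulAction G X] (M : Rep.{0} R G) :
    Representation R G (X → M) where
  toFun g :=
    { toFun := fun F x => M.ρ g (F (g⁻¹ • x))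
      map_add' := fun F F' => by funext x; simp
      map_smul' := fun c F => by funext x; simp }
  map_one' := by ext F x; simp
  map_mul' g h := by ext F x; simp [mul_smul]

@[simp] lemma mapsRepr_apply (X : Type) [MulAction G X] (M : Rep.{0} R G) (g : G) (F : X → M)
    (x : X) : mapsRepr X M g F x = M.ρ g (F (g⁻¹ • x)) := rfl

/-- The representation on maps `X → M` for a `G`-set `X`, bundled. -/
noncomputable abbrev mapsRep (X : Type) [MulAction G X] (M : Rep.{0} R G) : Rep.{0} R G :=
  Rep.of (mapsRepr X M)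

/-- Projection from maps on `X` to the coinduced module of a point stabiliser. -/
noncomputable def toCoind (X : Type) [MulAction G X] (M : Rep.{0} R G) (x : X) :
    mapsRep X M ⟶ Rep.coind (MulAction.stabilizer G x).subtype
      (Rep.res (MulAction.stabilizer G x).subtype M) :=
  Rep.ofHom ⟨
    { toFun := fun F => ⟨fun h => M.ρ h (F (h⁻¹ • x)), by
        intro s h
        have hs : (s : G)⁻¹ • x = x := (MulAction.stabilizer G x).inv_mem s.2
        simp [mul_smul, hs]⟩
      map_add' := fun F F' => by ext h; simp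
      map_smul' := fun c F => by ext h; simp },
    fun g => by
      ext F h
      simp [mul_smul]⟩

lemma toCoind_apply (X : Type) [MulAction G X] (M : Rep.{0} R G) (x : X) (F : X → M) (h : G) :
    ((toCoind X M x).hom F).1 h = M.ρ h (F (h⁻¹ • x)) := rfl

lemma isZero_mapsRep (X : Type) [MulAction G X] (M : Rep.{0} R G) (n k : ℕ) (hk : n < k)
    (hX : ∀ x : X, CdLE R (MulAction.stabilizer G x) n) :
    IsZero (groupCohomology (mapsRep X M) k) := by
  obtain ⟨j, rfl⟩ : ∃ j, k = j + 1 := ⟨k - 1, by omega⟩
  let ι := MulAction.orbitRel.Quotient G X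
  let rep : ι → X := fun o => Quotient.out o
  have hrep : ∀ x : X, ∃ g : G, g⁻¹ • rep (Quotient.mk _ x) = x := by
    intro x
    have h1 : (MulAction.orbitRel G X) (rep (Quotient.mk _ x)) x :=
      Quotient.exact (Quotient.out_eq (Quotient.mk (MulAction.orbitRel G X) x))
    obtain ⟨g, hg⟩ := h1
    exact ⟨g, by rw [← hg]; simp⟩
  choose c hc using hrep
  refine isZero_of_prod (mapsRep X M) _ (fun o : ι => toCoind X M (rep o)) ?_ ?_ j ?_
  · intro F hF
    funext x
    have h1 := congrFun (congrArg Subtype.val (hF (Quotient.mk _ x))) (c x)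
    rw [toCoind_apply, hc] at h1
    have h2 := congrArg (M.ρ (c x)⁻¹) h1
    change F x = 0
    simpa using h2
  · intro b
    refine ⟨fun x => M.ρ (c x)⁻¹ ((b (Quotient.mk _ x)).1 (c x)), ?_⟩
    intro o
    apply Subtype.ext
    funext h
    rw [toCoind_apply]
    have ho : (Quotient.mk (MulAction.orbitRel G X) (h⁻¹ • rep o) : ι) = o := by
      conv_rhs => rw [← Quotient.out_eq o]
      exact Quotient.sound ⟨h⁻¹, rfl⟩
    have hc' := hc (h⁻¹ • rep o)
    generalize c (h⁻¹ • rep o) = g at hc' ⊢
    rw [ho] at hc' ⊢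
    have hs : h * g⁻¹ ∈ MulAction.stabilizer G (rep o) := by
      rw [MulAction.mem_stabilizer_iff, mul_smul, hc']
      simp
    have h3 := (b o).2 ⟨_, hs⟩ g
    simp only [Subgroup.subtype_apply, inv_mul_cancel_right] at h3
    rw [h3]
    simp
  · intro o
    exact (hX (rep o) _ _ hk).of_iso (groupCohomology.coindIso _ _)

/-- A group acting on a tree, the tree being described by its cochain complex. -/
lemma CdLE.of_tree {V E : Type} [MulAction G V] [MulAction G E] (s t : E → V)
    (hs : ∀ (g : G) (e : E), s (g • e) = g • s e) (ht : ∀ (g : G) (e : E), t (g • e) = g • t e)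
    (v₀ : V)
    (hconn : ∀ (M : Type) (f : V → M), (∀ e, f (t e) = f (s e)) → ∀ v, f v = f v₀)
    (hsurj : ∀ (M : Type) [AddCommGroup M] (φ : E → M), ∃ f : V → M, ∀ e, f (t e) - f (s e) = φ e)
    (n : ℕ) (hV : ∀ v : V, CdLE R (MulAction.stabilizer G v) n)
    (hE : ∀ e : E, CdLE R (MulAction.stabilizer G e) n) : CdLE R G (n + 1) := by
  intro M k hk
  obtain ⟨j, rfl⟩ : ∃ j, k = j + 1 := ⟨k - 1, by omega⟩
  let i : M ⟶ mapsRep V M := Rep.ofHom ⟨
    { toFun := fun m _ => m
      map_add' := fun _ _ => rfl
      map_smul' := fun _ _ => rfl }, fun g => by ext m v; simp⟩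
  let δ : mapsRep V M ⟶ mapsRep E M := Rep.ofHom ⟨
    { toFun := fun f e => f (t e) - f (s e)
      map_add' := fun _ _ => by funext e; simp; abel
      map_smul' := fun _ _ => by funext e; simp [smul_sub] }, fun g => by
        ext f e; simp [hs, ht]⟩
  have hi : ∀ m v, i.hom m v = m := fun _ _ => rfl
  have hδ : ∀ f e, δ.hom f e = f (t e) - f (s e) := fun _ _ => rfl
  let X : ShortComplex (Rep.{0} R G) := ShortComplex.mk i δ (by
    ext m e
    change δ.hom (i.hom m) e = 0
    rw [hδ, hi, hi, sub_self])
  have hX : X.ShortExact := by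
    refine ShortComplex.ShortExact.mk' ?_ ?_ ?_
    · rw [← ShortComplex.exact_map_iff_of_faithful _ (forget₂ (Rep.{0} R G) (ModuleCat R)),
        ShortComplex.moduleCat_exact_iff]
      intro f hf
      refine ⟨f v₀, ?_⟩
      funext v
      have h1 : ∀ e, f (t e) = f (s e) := by
        intro e
        have := congrFun hf e
        exact sub_eq_zero.1 this
      exact (hconn _ f h1 v).symm
    · rw [Rep.mono_iff_injective]
      intro m m' h
      exact congrFun h v₀
    · rw [Rep.epi_iff_surjective]
      intro φ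
      obtain ⟨f, hf⟩ := hsurj M φ
      exact ⟨f, funext hf⟩
  have h1 := groupCohomology.mapShortComplex₁_exact hX (i := j) (j := j + 1) rfl
  exact h1.isZero_of_both_isZero (isZero_mapsRep E M n j (by omega) hE)
    (isZero_mapsRep V M n (j + 1) (by omega) hV)

end General

end Pool.Agent.Lib.MP_07d80f_al
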