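import Mathlib

set_option autoImplicit false

namespace Pool.Agent.Lib.MP_07d80f_al

open CategoryTheory

/-- A semigroup presentation over the alphabet `S`: a set of relations `u = v`, recorded as
pairs `(u, v)` of non-empty words.  No finiteness assumption. -/
structure SemigroupPresentation (S : Type) where
  /-- the set of relations -/
  rel : Set (List S × List S)
  left_ne_nil : ∀ r ∈ rel, r.1 ≠ []
  right_ne_nil : ∀ r ∈ rel, r.2 ≠ []

variable {S : Type}

/-- Edges of the Squier complex: one edge for each pair of (possibly empty) words `a`, `b` and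
each relation `u = v`. -/
structure Edge (P : SemigroupPresentation S) where
  /-- left context -/
  a : List S
  /-- the relation -/
  r : P.rel
  /-- right context -/
  b : List S

/-- The end `a u b` of the edge `(a, u = v, b)`. -/
def Edge.src {P : SemigroupPresentation S} (e : Edge P) : List S := e.a ++ e.r.1.1 ++ e.b

/-- The end `a v b` of the edge `(a, u = v, b)`. -/
def Edge.tgt {P : SemigroupPresentation S} (e : Edge P) : List S := e.a ++ e.r.1.2 ++ e.b

/-- Vertices of the Squier complex: the non-empty words. -/
structure Vertex (P : SemigroupPresentation S) where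
  /-- the word -/
  word : List S
  ne_nil : word ≠ []

/-- The 1-skeleton of the Squier complex, each edge `(a, u = v, b)` being oriented from `a u b` to
`a v b`. -/
instance squierQuiver (P : SemigroupPresentation S) : Quiver (Vertex P) where
  Hom x y := {e : Edge P // e.src = x.word ∧ e.tgt = y.word}

/-- The squares of the Squier complex.  For words `a`, `b`, `c` and relations `r : u = v`,
`s : p = q`, the two edge paths `a u b p c → a v b p c → a v b q c` and
`a u b p c → a u b q c → a v b q c` forming the boundary of the square are related. -/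
inductive SquareRel (P : SemigroupPresentation S) : HomRel (Quiver.FreeGroupoid (Vertex P))
  | square (a b c : List S) (r s : P.rel) {x y y' z : Vertex P}
      (e₁ : x ⟶ y) (e₂ : y ⟶ z) (e₃ : x ⟶ y') (e₄ : y' ⟶ z)
      (h₁ : e₁.1 = ⟨a, r, b ++ s.1.1 ++ c⟩) (h₂ : e₂.1 = ⟨a ++ r.1.2 ++ b, s, c⟩)
      (h₃ : e₃.1 = ⟨a ++ r.1.1 ++ b, s, c⟩) (h₄ : e₄.1 = ⟨a, r, b ++ s.1.2 ++ c⟩) :
      SquareRel P
        ((Quiver.FreeGroupoid.of (Vertex P)).map e₁ ≫ (Quiver.FreeGroupoid.of (Vertex P)).map e₂)
        ((Quiver.FreeGroupoid.of (Vertex P)).map e₃ ≫ (Quiver.FreeGroupoid.of (Vertex P)).map e₄)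

/-- The fundamental (edge-path) groupoid of the Squier complex: the free groupoid on the
1-skeleton modulo the boundaries of the squares. -/
abbrev SquierGroupoid (P : SemigroupPresentation S) := CategoryTheory.Quotient (SquareRel P)

/-- A vertex of the Squier complex as an object of its fundamental groupoid. -/
def Vertex.toObj {P : SemigroupPresentation S} (w : Vertex P) : SquierGroupoid P :=
  (CategoryTheory.Quotient.functor (SquareRel P)).obj ((Quiver.FreeGroupoid.of (Vertex P)).obj w)

/-- The diagram group `D(P, w)`: the fundamental group of the Squier complex at the vertex `w`. -/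
abbrev DiagramGroup (P : SemigroupPresentation S) (w : Vertex P) := End w.toObj

/-- A diagram group is a group isomorphic to some `D(P, w)`. -/
def IsDiagramGroup (G : Type) [Group G] : Prop :=
  ∃ (S : Type) (P : SemigroupPresentation S) (w : Vertex P), Nonempty (G ≃* DiagramGroup P w)

/-- Cohomological dimension: the supremum of the `n` with `Hⁿ(G; M) ≠ 0` for some
`ℤG`-module `M`. -/
noncomputable def cd (G : Type) [Group G] : ℕ∞ :=
  ⨆ (n : ℕ) (_ : ∃ M : Rep.{0} ℤ G, Nontrivial (groupCohomology M n)), (n : ℕ∞)

/-- Algebraic dimension: the supremum of the `n` such that `G` has a subgroup isomorphic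
to `ℤⁿ`. -/
noncomputable def ad (G : Type) [Group G] : ℕ∞ :=
  ⨆ (n : ℕ) (_ : ∃ H : Subgroup G, Nonempty (H ≃* Multiplicative (Fin n → ℤ))), (n : ℕ∞)

end Pool.Agent.Lib.MP_07d80f_al
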