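import Pool.Agent.Lib.MP_07d80f_al.Term

set_option autoImplicit false

namespace Pool.Agent.Lib.MP_07d80f_al

variable {S : Type} {P : SemigroupPresentation S}

/-- Oriented edges. -/
structure SEdge (P : SemigroupPresentation S) where
  /-- left context -/
  a : List S
  /-- oriented relation -/
  ρ : SRel P
  /-- right context -/
  b : List S

/-- Edge paths, listed from the last edge to the first. -/
inductive IsPath (x : List S) : List (SEdge P) → List S → Prop
  | nil : IsPath x [] x
  | cons {p : List (SEdge P)} {y z : List S} (e : SEdge P) :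
      IsPath x p y → y = e.a ++ e.ρ.src ++ e.b → z = e.a ++ e.ρ.tgt ++ e.b → IsPath x (e :: p) z

/-- The element of the universal group represented by a path. -/
def pval (p : List (SEdge P)) : U P := (p.map fun e => ed e.a e.ρ e.b).prod

@[simp] lemma pval_nil : pval ([] : List (SEdge P)) = 1 := rfl
lemma pval_cons (e : SEdge P) (p : List (SEdge P)) : pval (e :: p) = ed e.a e.ρ e.b * pval p := by
  simp [pval]
lemma pval_append (p q : List (SEdge P)) : pval (p ++ q) = pval p * pval q := by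
  simp [pval]

lemma IsPath.hom {x y : List S} {p : List (SEdge P)} (h : IsPath x p y) : Hom x (pval p) y := by
  induction h with
  | nil => exact Hom.refl
  | cons e _ hy hz ih => exact Hom.step e.a e.ρ e.b ih hy hz (pval_cons _ _)

lemma Hom.path {x y : List S} {g : U P} (h : Hom x g y) : ∃ p, IsPath x p y ∧ pval p = g := by
  induction h with
  | refl => exact ⟨[], IsPath.nil, rfl⟩
  | step a ρ b _ hy hz hg ih =>
    obtain ⟨p, hp, hv⟩ := ih
    exact ⟨⟨a, ρ, b⟩ :: p, IsPath.cons _ hp hy hz, by rw [pval_cons, hv, hg]⟩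

lemma IsPath.of_nil {x y : List S} (h : IsPath (P := P) x [] y) : y = x := by
  cases h; rfl

lemma IsPath.of_cons {x z : List S} {e : SEdge P} {p : List (SEdge P)} (h : IsPath x (e :: p) z) :
    IsPath x p (e.a ++ e.ρ.src ++ e.b) ∧ z = e.a ++ e.ρ.tgt ++ e.b := by
  cases h with
  | cons _ hp hy hz => exact ⟨hy ▸ hp, hz⟩

lemma IsPath.append {x y z : List S} {p q : List (SEdge P)} (hq : IsPath x q y)
    (hp : IsPath y p z) : IsPath x (p ++ q) z := by
  induction hp with
  | nil => exact hq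
  | cons e _ hy hz ih => exact IsPath.cons e ih hy hz

lemma IsPath.of_append {x z : List S} {p q : List (SEdge P)} (h : IsPath x (p ++ q) z) :
    ∃ y, IsPath x q y ∧ IsPath y p z := by
  induction p generalizing z with
  | nil => exact ⟨z, h, IsPath.nil⟩
  | cons e p ih =>
    obtain ⟨h1, h2⟩ := IsPath.of_cons h
    obtain ⟨y, hq, hp⟩ := ih h1
    exact ⟨y, hq, IsPath.cons e hp rfl h2⟩

/-- Left whiskering of an oriented edge. -/
def SEdge.wl (l : List S) (e : SEdge P) : SEdge P := ⟨l ++ e.a, e.ρ, e.b⟩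

lemma IsPath.wl {x y : List S} {p : List (SEdge P)} (h : IsPath x p y) (l : List S) :
    IsPath (l ++ x) (p.map (SEdge.wl l)) (l ++ y) := by
  induction h with
  | nil => exact IsPath.nil
  | cons e _ hy hz ih =>
    exact IsPath.cons _ ih (by simp [hy, SEdge.wl]) (by simp [hz, SEdge.wl])

lemma pval_wl (l : List S) (p : List (SEdge P)) : pval (p.map (SEdge.wl l)) = W l [] (pval p) := by
  induction p with
  | nil => simp
  | cons e p ih => rw [List.map_cons, pval_cons, pval_cons, map_mul, ih, W_ed]; simp [SEdge.wl]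

lemma IsPath.unwl {c : S} {x y : List S} {p : List (SEdge P)} (h : IsPath (c :: x) p y)
    (hp : ∀ e ∈ p, e.a ≠ []) :
    ∃ p' y', y = c :: y' ∧ IsPath x p' y' ∧ p = p'.map (SEdge.wl [c]) := by
  induction h with
  | nil => exact ⟨[], x, rfl, IsPath.nil, rfl⟩
  | cons e _ hy hz ih =>
    obtain ⟨p', y', h1, h2, h3⟩ := ih fun e' he' => hp e' (List.mem_cons_of_mem _ he')
    obtain ⟨a, ρ, b⟩ := e
    obtain ⟨c', a', rfl⟩ := List.exists_cons_of_ne_nil (hp _ List.mem_cons_self)
    rw [h1] at hy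
    simp only [List.cons_append, List.cons.injEq] at hy
    obtain ⟨rfl, hy⟩ := hy
    exact ⟨⟨a', ρ, b⟩ :: p', a' ++ ρ.tgt ++ b, by simpa using hz, IsPath.cons _ h2 hy rfl,
      by simp [h3, SEdge.wl]⟩

/-- Labels of initial edges. -/
abbrev Lab (P : SemigroupPresentation S) := P.rel × Quot (Conn P)

open Classical in
/-- The homomorphism to a free group recording the initial edges. -/
noncomputable def psi : U P →* FreeGroup (Lab P) :=
  liftU (fun a r b => if a = [] then FreeGroup.of (r, Quot.mk _ b) else 1) (by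
    intro a b c r s
    have h1 : a ++ r.1.2 ++ b ≠ [] := by simp [P.right_ne_nil _ r.2]
    have h2 : a ++ r.1.1 ++ b ≠ [] := by simp [P.left_ne_nil _ r.2]
    have h3 : Quot.mk (Conn P) (b ++ s.1.1 ++ c) = Quot.mk (Conn P) (b ++ s.1.2 ++ c) :=
      Quot.sound ⟨_, Hom.edge b ⟨s, true⟩ c⟩
    simp only [if_neg h1, if_neg h2, h3, one_mul, mul_one])

open Classical in
/-- The label of an oriented edge, if it is initial. -/
noncomputable def lab (e : SEdge P) : Option (Lab P × Bool) :=
  if e.a = [] then some ((e.ρ.r, Quot.mk _ e.b), e.ρ.pos) else none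

lemma psi_pval (p : List (SEdge P)) : psi (pval p) = FreeGroup.mk (p.filterMap lab) := by
  induction p with
  | nil => simp [FreeGroup.one_eq_mk]
  | cons e p ih =>
    rw [pval_cons, map_mul, ih]
    obtain ⟨a, ⟨r, pos⟩, b⟩ := e
    by_cases ha : a = []
    · rw [List.filterMap_cons_some (b := ((r, Quot.mk _ b), pos)) (by simp [lab, ha]),
        ← List.singleton_append, ← FreeGroup.mul_mk]
      congr 1
      cases pos
      · simp [psi, ha, FreeGroup.of, FreeGroup.inv_mk, FreeGroup.invRev]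
      · simp [psi, ha, FreeGroup.of]
    · rw [List.filterMap_cons_none (by simp [lab, ha])]
      cases pos <;> simp [psi, ha]

lemma psi_W (l r : List S) (hl : l ≠ []) (g : U P) : psi (W l r g) = 1 := by
  have : psi.comp (W l r) = (1 : U P →* FreeGroup (Lab P)) :=
    U_ext fun a s b => by simp [psi, hl]
  exact DFunLike.congr_fun this g

lemma exists_pair_of_mk_eq_one {α : Type} {L : List (α × Bool)} (h : FreeGroup.mk L = 1)
    (hL : L ≠ []) : ∃ L₁ L₂ x b, L = L₁ ++ (x, b) :: (x, !b) :: L₂ := by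
  rw [FreeGroup.one_eq_mk, FreeGroup.Red.exact] at h
  obtain ⟨L', h1, h2⟩ := h
  rw [FreeGroup.Red.nil_iff] at h2
  subst h2
  rcases Relation.ReflTransGen.cases_head h1 with h3 | ⟨L'', h3, -⟩
  · exact absurd h3 hL
  · cases h3 with
    | @not L₁ L₂ x b => exact ⟨L₁, L₂, x, b, rfl⟩

lemma conn_of_mk_eq {b b' : List S} (h : Quot.mk (Conn P) b = Quot.mk (Conn P) b') :
    Conn P b b' := by
  have e : Equivalence (Conn P) := ⟨Conn.refl, Conn.symm, Conn.trans⟩
  exact e.eqvGen_iff.1 (Quot.eqvGen_exact h)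

lemma straighten (u : List S)
    (H : ∀ z, (∃ a, Conn P (a ++ z) u) → ∀ g : U P, Hom z g z → psi g = 1) (k : ℕ) :
    ∀ (v b b' : List S) (p : List (SEdge P)), p.length = k → (∃ a, Conn P (a ++ (v ++ b)) u) →
      IsPath (v ++ b) p (v ++ b') → Conn P b b' →
      ∃ η, η.length ≤ p.length ∧ IsPath b η b' ∧ pval p = W v [] (pval η) := by
  induction k using Nat.strong_induction_on with
  | _ k ihk =>
  intro v
  induction v with
  | nil => intro b b' p _ _ hp _; exact ⟨p, le_rfl, hp, by simp⟩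
  | cons c v ihv =>
    intro b b' p hk hsuf hp hbb
    have hpsi : psi (pval p) = 1 := by
      obtain ⟨η₀, hη₀⟩ := hbb
      have h1 := H _ hsuf _ (hp.hom.trans (hη₀.left (c :: v)).symm)
      rwa [map_mul, map_inv, psi_W _ _ (List.cons_ne_nil _ _), inv_one, one_mul] at h1
    rw [psi_pval] at hpsi
    by_cases hnil : p.filterMap lab = []
    · rw [List.filterMap_eq_nil_iff] at hnil
      obtain ⟨p', y', h1, h2, h3⟩ := IsPath.unwl (c := c) (x := v ++ b) hp (by
        intro e he ha
        have := hnil e he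
        simp [lab, ha] at this)
      simp only [List.cons_append, List.cons.injEq, true_and] at h1
      subst h1
      obtain ⟨a, ha⟩ := hsuf
      obtain ⟨η, hη1, hη2, hη3⟩ := ihv b b' p' (by rw [← hk, h3, List.length_map])
        ⟨a ++ [c], by simpa using ha⟩ h2 hbb
      refine ⟨η, by simpa [h3] using hη1, hη2, ?_⟩
      rw [h3, pval_wl, hη3, W_W]
      rfl
    · obtain ⟨L₁, L₂, x, s, hL⟩ := exists_pair_of_mk_eq_one hpsi hnil
      obtain ⟨p₁, q, rfl, -, hq⟩ := List.filterMap_eq_append_iff.1 hL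
      obtain ⟨p₂, e', q', rfl, -, he', hq'⟩ := List.filterMap_eq_cons_iff.1 hq
      obtain ⟨δ, e, p₃, rfl, -, he, -⟩ := List.filterMap_eq_cons_iff.1 hq'
      obtain ⟨a, ρ, d⟩ := e
      obtain ⟨a', ρ', d'⟩ := e'
      have ha : a = [] := by
        by_contra ha; simp [lab, ha] at he
      have ha' : a' = [] := by
        by_contra ha'; simp [lab, ha'] at he'
      subst ha ha'
      simp only [lab, if_true, Option.some.injEq, Prod.mk.injEq] at he he'
      have hρ : ρ' = ρ.bar := by
        obtain ⟨r, pos⟩ := ρ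
        obtain ⟨r', pos'⟩ := ρ'
        have e1 : r' = r := by
          have := he'.1.trans he.1.symm
          exact (Prod.mk.inj this).1
        have e2 : pos' = !pos := by
          have h1 : pos' = s := he'.2
          have h2 : pos = !s := he.2
          rw [h1, h2, Bool.not_not]
        simp [SRel.bar, e1, e2]
      have hdd : Conn P d d' := conn_of_mk_eq (Prod.mk.inj (he.1.trans he'.1.symm)).2
      subst hρ
      obtain ⟨y₁, hp1, hp2⟩ := hp.of_append
      obtain ⟨y₂, hp3, hp4⟩ := hp1.of_append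
      obtain ⟨hp5, hy₂⟩ := hp3.of_cons
      obtain ⟨y₃, hp6, hp7⟩ := hp5.of_append
      obtain ⟨hp8, hy₃⟩ := hp6.of_cons
      simp only [List.nil_append, SRel.src_bar, SRel.tgt_bar] at hy₂ hy₃ hp7 hp8
      subst hy₂ hy₃
      obtain ⟨a, ha⟩ := hsuf
      obtain ⟨η₁, hη1, hη2, hη3⟩ := ihk δ.length (by rw [← hk]; simp; omega) ρ.tgt d d' δ rfl
        ⟨a, ((Conn.left ⟨_, hp6.hom⟩ a).symm).trans ha⟩ hp7 hdd
      have hnew : IsPath (c :: v ++ b) (p₁ ++ (p₂ ++ (η₁.map (SEdge.wl ρ.src) ++ p₃)))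
          (c :: v ++ b') := ((hp8.append (hη2.wl ρ.src)).append hp4).append hp2
      obtain ⟨η, hη4, hη5, hη6⟩ := ihk _ (by rw [← hk]; simp; omega) (c :: v) b b' _ rfl
        ⟨a, ha⟩ hnew hbb
      refine ⟨η, ?_, hη5, ?_⟩
      · simp at hη4 ⊢; omega
      · rw [← hη6]
        simp only [pval_append, pval_cons, pval_wl, hη3]
        have h1 := ed_nat_right [] ρ hη2.hom
        simp only [List.nil_append] at h1
        rw [ed_bar, ← mul_assoc (W ρ.tgt [] (pval η₁)), ← h1, mul_assoc, inv_mul_cancel_left]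

/-- A non-trivial loop group has an element of infinite order. -/
lemma exists_infinite_order {u : List S} (hu : ∃ g : U P, Hom u g u ∧ g ≠ 1) :
    ∃ h : U P, Hom u h u ∧ ∀ n : ℤ, h ^ n = 1 → n = 0 := by
  by_cases H : ∀ z, (∃ a, Conn P (a ++ z) u) → ∀ g : U P, Hom z g z → psi g = 1
  · exfalso
    obtain ⟨g, hg, hne⟩ := hu
    obtain ⟨p, hp, rfl⟩ := hg.path
    obtain ⟨η, -, hη2, hη3⟩ := straighten u H _ u [] [] p rfl ⟨[], by simpa using Conn.refl u⟩
      (by simpa using hp) (Conn.refl _)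
    rw [hη3, hη2.hom.of_nil.1, map_one] at hne
    exact hne rfl
  · push Not at H
    obtain ⟨z, ⟨a, γ, hγ⟩, g, hg, hne⟩ := H
    refine ⟨γ * W a [] g * γ⁻¹, ?_, ?_⟩
    · rw [mul_assoc]
      exact (hγ.symm.trans (hg.left a)).trans hγ
    · intro n hn
      rw [conj_zpow, mul_inv_eq_one, mul_eq_left, ← map_zpow] at hn
      have h1 : Hom z (g ^ n) z := (D P z).zpow_mem hg n
      have h2 := congrArg psi (h1.eq_one_of_W hn)
      rw [map_zpow, map_one] at h2
      by_contra h0
      exact hne (zpow_left_injective h0 (by simpa using h2))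

/-- The loop group at `w` contains a free abelian group of rank `k`. -/
def HasZ (P : SemigroupPresentation S) (w : List S) (k : ℕ) : Prop :=
  ∃ f : (Fin k → ℤ) → U P, (∀ v v', f (v + v') = f v * f v') ∧ (∀ v, Hom w (f v) w) ∧
    ∀ v, f v = 1 → v = 0

lemma hasZ_zero (w : List S) : HasZ P w 0 :=
  ⟨fun _ => 1, fun _ _ => (one_mul _).symm, fun _ => Hom.refl, fun _ _ => Subsingleton.elim _ _⟩

lemma HasZ.conn {w w' : List S} {k : ℕ} (h : HasZ P w k) (hw : Conn P w w') : HasZ P w' k := by
  obtain ⟨f, h1, h2, h3⟩ := h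
  obtain ⟨γ, hγ⟩ := hw
  refine ⟨fun v => γ * f v * γ⁻¹, fun v v' => by simp only [h1]; group, fun v => ?_,
    fun v hv => ?_⟩
  · simp only [mul_assoc]
    exact (hγ.symm.trans (h2 v)).trans hγ
  · rw [mul_inv_eq_one, mul_eq_left] at hv
    exact h3 v hv

lemma HasZ.cons {q s : List S} {k : ℕ} (hq : ∃ g : U P, Hom q g q ∧ g ≠ 1) (h : HasZ P s k) :
    HasZ P (q ++ s) (k + 1) := by
  obtain ⟨f, h1, h2, h3⟩ := h
  obtain ⟨g, hg, hinf⟩ := exists_infinite_order hq
  have hz : ∀ n : ℤ, Hom q (g ^ n) q := fun n => (D P q).zpow_mem hg n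
  refine ⟨fun v => W [] s (g ^ v 0) * W q [] (f (Fin.tail v)), fun v v' => ?_, fun v => ?_,
    fun v hv => ?_⟩
  · have e1 : Fin.tail (v + v') = Fin.tail v + Fin.tail v' := rfl
    simp only [e1, h1, Pi.add_apply, zpow_add, map_mul]
    rw [mul_assoc, mul_assoc, ← mul_assoc (W [] s (g ^ v' 0)), interchange (hz _) (h2 _), mul_assoc]
  · exact ((h2 _).left q).trans ((hz _).right s)
  · obtain ⟨e1, e2⟩ := eq_one_of_prod (hz _) (h2 _) hv
    rw [← Fin.cons_self_tail v, hinf _ e1, h3 _ e2]
    funext i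
    refine Fin.cases rfl (fun _ => rfl) i

end Pool.Agent.Lib.MP_07d80f_al
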