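import Pool.Agent.Lib.MP_07d80f_al.Univ

set_option autoImplicit false

namespace Pool.Agent.Lib.MP_07d80f_al

variable {S : Type} {P : SemigroupPresentation S}

/-- Terms recording the history of a letter of a diagram. -/
inductive Tm (P : SemigroupPresentation S) : Type
  | var : Tm P
  | out : SRel P → ℕ → (ℕ → Tm P) → Tm P

/-- The input of the last cell. -/
def Tm.arg : Tm P → ℕ → Tm P
  | .var => fun _ => .var
  | .out _ _ V => V

/-- The cell `ρ` forms a dipole with the cell that produced the block `B`. -/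
def Canc (ρ : SRel P) (B : ℕ → Tm P) : Prop :=
  ∀ i < ρ.src.length, B i = .out ρ.bar i (B 0).arg

/-- Reduced terms. -/
def Tm.Red : Tm P → Prop
  | .var => True
  | .out ρ _ V => (∀ i, Tm.Red (V i)) ∧ (∀ i, ρ.src.length ≤ i → V i = .var) ∧ ¬ Canc ρ V

/-- The block of length `m` at position `k`. -/
def blk (s : ℕ → Tm P) (k m : ℕ) : ℕ → Tm P := fun i => if i < m then s (k + i) else .var

/-- Replace the block of length `m` at position `k` by the first `n` entries of `B`. -/
def splice (s : ℕ → Tm P) (k m n : ℕ) (B : ℕ → Tm P) : ℕ → Tm P :=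
  fun i => if i < k then s i else if i < k + n then B (i - k) else s (i - n + m)

open Classical in
/-- The local action of a cell on a block. -/
noncomputable def phi (ρ : SRel P) (B : ℕ → Tm P) : ℕ → Tm P :=
  if Canc ρ B then (B 0).arg else fun i => .out ρ i B

/-- The action of a cell at position `k`. -/
noncomputable def act (ρ : SRel P) (k : ℕ) (s : ℕ → Tm P) : ℕ → Tm P :=
  splice s k ρ.src.length ρ.tgt.length (phi ρ (blk s k ρ.src.length))

lemma blk_splice_self (s : ℕ → Tm P) (k m n : ℕ) (B : ℕ → Tm P) :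
    blk (splice s k m n B) k n = blk B 0 n := by
  funext i
  simp only [blk, splice]
  split_ifs <;> first | rfl | omega | (congr 1; omega)

lemma blk_splice_left (s : ℕ → Tm P) (k m n : ℕ) (B : ℕ → Tm P) (k' m' : ℕ) (h : k' + m' ≤ k) :
    blk (splice s k m n B) k' m' = blk s k' m' := by
  funext i
  simp only [blk, splice]
  split_ifs <;> first | rfl | omega

lemma blk_splice_right (s : ℕ → Tm P) (k m n : ℕ) (B : ℕ → Tm P) (j m' : ℕ) :
    blk (splice s k m n B) (k + n + j) m' = blk s (k + m + j) m' := by
  funext i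
  simp only [blk, splice]
  split_ifs <;> first | rfl | omega | (congr 1; omega)

lemma splice_splice_self (s : ℕ → Tm P) (k m n m' : ℕ) (B B' : ℕ → Tm P) :
    splice (splice s k m n B) k n m' B' = splice s k m m' B' := by
  funext i
  simp only [splice]
  split_ifs <;> first | rfl | omega | (congr 1; omega)

lemma splice_eq_self (s : ℕ → Tm P) (k m : ℕ) (B : ℕ → Tm P) (h : ∀ i < m, B i = s (k + i)) :
    splice s k m m B = s := by
  funext i
  simp only [splice]
  split_ifs
  · rfl
  · rw [h _ (by omega)]; congr 1; omega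
  · congr 1; omega

lemma splice_comm (s : ℕ → Tm P) (k m n j m' n' : ℕ) (B B' : ℕ → Tm P) :
    splice (splice s k m n B) (k + n + j) m' n' B' =
      splice (splice s (k + m + j) m' n' B') k m n B := by
  funext i
  simp only [splice]
  split_ifs <;> first | rfl | omega | (congr 1; omega)

lemma act_comm (ρ σ : SRel P) (k j : ℕ) (s : ℕ → Tm P) :
    act σ (k + ρ.tgt.length + j) (act ρ k s) = act ρ k (act σ (k + ρ.src.length + j) s) := by
  unfold act
  rw [blk_splice_right, blk_splice_left _ _ _ _ _ k _ (by omega), splice_comm]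

lemma red_blk {s : ℕ → Tm P} (hs : ∀ i, (s i).Red) (k m i : ℕ) : (blk s k m i).Red := by
  unfold blk
  split_ifs
  · exact hs _
  · trivial

lemma blk_pad (s : ℕ → Tm P) (k m i : ℕ) (h : m ≤ i) : blk s k m i = .var := by
  simp [blk, not_lt.2 h]

lemma red_phi (ρ : SRel P) {B : ℕ → Tm P} (hB : ∀ i, (B i).Red)
    (hp : ∀ i, ρ.src.length ≤ i → B i = .var) (i : ℕ) : (phi ρ B i).Red := by
  unfold phi
  split_ifs with h
  · have h0 := hB 0
    rw [h 0 ρ.src_pos] at h0
    exact h0.1 i
  · exact ⟨hB, hp, h⟩

lemma red_act (ρ : SRel P) (k : ℕ) {s : ℕ → Tm P} (hs : ∀ i, (s i).Red) (i : ℕ) :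
    (act ρ k s i).Red := by
  unfold act splice
  split_ifs
  · exact hs _
  · exact red_phi ρ (red_blk hs _ _) (blk_pad _ _ _) _
  · exact hs _

lemma phi_bar_phi (ρ : SRel P) {B : ℕ → Tm P} (hB : ∀ i, (B i).Red) (i : ℕ)
    (hi : i < ρ.src.length) : phi ρ.bar (blk (phi ρ B) 0 ρ.tgt.length) i = B i := by
  by_cases h : Canc ρ B
  · have h0 := hB 0
    rw [h 0 ρ.src_pos] at h0
    obtain ⟨-, h2, h3⟩ := h0
    have e1 : blk (phi ρ B) 0 ρ.tgt.length = (B 0).arg := by
      funext j
      simp only [blk, phi, if_pos h, zero_add]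
      split_ifs with hj
      · rfl
      · exact (h2 j (by rw [SRel.src_bar]; omega)).symm
    rw [e1, phi, if_neg h3]
    exact (h i hi).symm
  · have e0 : blk (phi ρ B) 0 ρ.tgt.length 0 = .out ρ 0 B := by
      simp [blk, phi, if_neg h, ρ.tgt_pos]
    have e1 : Canc ρ.bar (blk (phi ρ B) 0 ρ.tgt.length) := by
      intro j hj
      rw [SRel.src_bar] at hj
      rw [e0]
      simp [blk, phi, if_neg h, hj, Tm.arg]
    rw [phi, if_pos e1, e0]
    rfl

lemma act_bar_act (ρ : SRel P) (k : ℕ) {s : ℕ → Tm P} (hs : ∀ i, (s i).Red) :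
    act ρ.bar k (act ρ k s) = s := by
  unfold act
  rw [SRel.src_bar, SRel.tgt_bar, blk_splice_self, splice_splice_self]
  apply splice_eq_self
  intro i hi
  rw [phi_bar_phi ρ (red_blk hs _ _) i hi]
  simp [blk, hi]

/-- States: sequences of reduced terms. -/
def St (P : SemigroupPresentation S) := {s : ℕ → Tm P // ∀ i, (s i).Red}

/-- A cell acts as a permutation of the states. -/
noncomputable def cellPerm (ρ : SRel P) (k : ℕ) : Equiv.Perm (St P) where
  toFun s := ⟨act ρ k s.1, red_act ρ k s.2⟩
  invFun s := ⟨act ρ.bar k s.1, red_act ρ.bar k s.2⟩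
  left_inv s := Subtype.ext (act_bar_act ρ k s.2)
  right_inv s := Subtype.ext (by simpa using act_bar_act ρ.bar k s.2)

/-- The action of the universal group on states. -/
noncomputable def Phi : U P →* Equiv.Perm (St P) :=
  liftU (fun a r _ => cellPerm ⟨r, true⟩ a.length) (by
    intro a b c r s
    ext t : 1
    apply Subtype.ext
    have h := act_comm (⟨r, true⟩ : SRel P) ⟨s, true⟩ a.length b.length t.1
    simpa [cellPerm, add_assoc] using h)

lemma Phi_ed (a : List S) (ρ : SRel P) (b : List S) (s : St P) :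
    (Phi (ed a ρ b) s).1 = act ρ a.length s.1 := by
  rcases ρ with ⟨r, _ | _⟩
  · rw [ed_false, map_inv, Phi, liftU_gen]
    rfl
  · rw [ed_true, Phi, liftU_gen]
    rfl

/-- The generic state. -/
def vars : St P := ⟨fun _ => .var, fun _ => trivial⟩

/-- The state reached from the generic state. -/
noncomputable def st (g : U P) : ℕ → Tm P := (Phi g vars).1

lemma st_one : st (1 : U P) = fun _ => .var := by simp [st, vars]

lemma st_ed (a : List S) (ρ : SRel P) (b : List S) (g : U P) :
    st (ed a ρ b * g) = act ρ a.length (st g) := by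
  unfold st
  rw [map_mul, Equiv.Perm.mul_apply, Phi_ed]

/-- Reduced paths. -/
inductive Reach (x : List S) : ℕ → U P → List S → Prop
  | refl : Reach x 0 1 x
  | step {n : ℕ} {g g' : U P} {y z : List S} (a : List S) (ρ : SRel P) (b : List S) :
      Reach x n g y → y = a ++ ρ.src ++ b → z = a ++ ρ.tgt ++ b → g' = ed a ρ b * g →
      ¬ Canc ρ (blk (st g) a.length ρ.src.length) → Reach x (n + 1) g' z

lemma append_split {a b c d : List S} (h : a ++ b = c ++ d) (hl : a.length ≤ c.length) :
    ∃ e, c = a ++ e ∧ b = e ++ d := by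
  rcases List.append_eq_append_iff.1 h with ⟨e, h1, h2⟩ | ⟨e, h1, h2⟩
  · exact ⟨e, h1, h2⟩
  · have : e = [] := by
      have := congrArg List.length h1
      rw [List.length_append] at this
      exact List.length_eq_zero_iff.1 (by omega)
    subst this
    exact ⟨[], by simpa using h1.symm, by simpa using h2.symm⟩

lemma Reach.cancel {x : List S} {n : ℕ} {g : U P} {y : List S} (h : Reach x n g y) :
    ∀ (a : List S) (ρ : SRel P) (b : List S), y = a ++ ρ.src ++ b →
      Canc ρ (blk (st g) a.length ρ.src.length) →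
      ∃ m, n = m + 1 ∧ Reach x m (ed a ρ b * g) (a ++ ρ.tgt ++ b) := by
  induction h with
  | refl =>
    intro a ρ b _ hc
    have := hc 0 ρ.src_pos
    simp [blk, st_one] at this
  | @step n g₀ g y₀ y a₀ ρ₀ b₀ h₀ hy₀ hy hg hn ih =>
    intro a ρ b hab hc
    have hst : st g = splice (st g₀) a₀.length ρ₀.src.length ρ₀.tgt.length
        (fun i => .out ρ₀ i (blk (st g₀) a₀.length ρ₀.src.length)) := by
      rw [hg, st_ed, act, phi, if_neg hn]
    have hl : a ++ ρ.src ++ b = a₀ ++ ρ₀.tgt ++ b₀ := hab.symm.trans hy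
    by_cases h1 : a.length + ρ.src.length ≤ a₀.length
    · obtain ⟨c, hc1, hc2⟩ := append_split (a := a ++ ρ.src) (b := b) (c := a₀)
        (d := ρ₀.tgt ++ b₀) (by simpa using hl) (by simpa using h1)
      rw [hst, blk_splice_left _ _ _ _ _ _ _ h1] at hc
      obtain ⟨m, hm, hr⟩ := ih a ρ (c ++ ρ₀.src ++ b₀) (by simp [hy₀, hc1]) hc
      refine ⟨n, rfl, ?_⟩
      rw [hm]
      refine Reach.step (a ++ ρ.tgt ++ c) ρ₀ b₀ hr (by simp) (by simp [hc2]) ?_ ?_
      · rw [hg, hc1, hc2, ← mul_assoc, ← mul_assoc, ed_square, List.append_assoc c]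
      · rw [st_ed, act, List.length_append, List.length_append, blk_splice_right]
        rwa [hc1, List.length_append, List.length_append] at hn
    by_cases h2 : a₀.length + ρ₀.tgt.length ≤ a.length
    · obtain ⟨c, hc1, hc2⟩ := append_split (a := a₀ ++ ρ₀.tgt) (b := b₀) (c := a)
        (d := ρ.src ++ b) (by simpa using hl.symm) (by simpa using h2)
      have hla : a.length = a₀.length + ρ₀.tgt.length + c.length := by simp [hc1, add_assoc]
      rw [hst, hla, blk_splice_right] at hc
      obtain ⟨m, hm, hr⟩ := ih (a₀ ++ ρ₀.src ++ c) ρ b (by simp [hy₀, hc2])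
        (by simpa [add_assoc] using hc)
      refine ⟨n, rfl, ?_⟩
      rw [hm]
      refine Reach.step a₀ ρ₀ (c ++ ρ.tgt ++ b) hr (by simp) (by simp [hc1]) ?_ ?_
      · rw [hg, hc1, hc2, ← mul_assoc, ← mul_assoc, ← ed_square, List.append_assoc c]
      · rwa [st_ed, act, blk_splice_left _ _ _ _ _ _ _ (by simp)]
    · have hs := ρ.src_pos
      have ht := ρ₀.tgt_pos
      have h3 := hc (max a.length a₀.length - a.length) (by omega)
      have h4 : blk (st g) a.length ρ.src.length (max a.length a₀.length - a.length) =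
          .out ρ₀ (max a.length a₀.length - a₀.length) (blk (st g₀) a₀.length ρ₀.src.length) := by
        rw [hst]
        simp only [blk, splice]
        rw [if_pos (by omega), if_neg (by omega), if_pos (by omega)]
        congr 1
        omega
      rw [h4] at h3
      injection h3 with e1 e2 _
      have e3 : a.length = a₀.length := by omega
      subst e1
      rw [SRel.tgt_bar, List.append_assoc, List.append_assoc] at hl
      obtain ⟨rfl, e4⟩ := List.append_inj hl e3
      obtain rfl := List.append_cancel_left e4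
      refine ⟨n, rfl, ?_⟩
      rw [hg, ed_bar, mul_inv_cancel_left, ← SRel.src_bar, ← hy₀]
      exact h₀

lemma Hom.reach {x : List S} {g : U P} {y : List S} (h : Hom x g y) : ∃ n, Reach x n g y := by
  induction h with
  | refl => exact ⟨0, Reach.refl⟩
  | @step g g' y z a ρ b _ hy hz hg ih =>
    obtain ⟨n, hn⟩ := ih
    by_cases hc : Canc ρ (blk (st g) a.length ρ.src.length)
    · obtain ⟨m, -, hm⟩ := hn.cancel a ρ b hy hc
      exact ⟨m, hz ▸ hg ▸ hm⟩
    · exact ⟨n + 1, Reach.step a ρ b hn hy hz hg hc⟩

/-- The action on the generic state is faithful on every hom-set. -/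
lemma Hom.eq_one_of_st {x : List S} {g : U P} {y : List S} (h : Hom x g y)
    (hs : ∀ i, st g i = .var) : g = 1 := by
  obtain ⟨n, hn⟩ := h.reach
  cases hn with
  | refl => rfl
  | step a ρ b _ _ _ hg hc =>
    have h1 := hs a.length
    rw [hg, st_ed, act, phi, if_neg hc] at h1
    simp [splice, ρ.tgt_pos] at h1

/-- Shifting a state to the right. -/
def shift (k : ℕ) (t : ℕ → Tm P) : ℕ → Tm P := fun i => if i < k then .var else t (i - k)

lemma act_shift (ρ : SRel P) (k j : ℕ) (t : ℕ → Tm P) :
    act ρ (k + j) (shift k t) = shift k (act ρ j t) := by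
  have h1 : blk (shift k t) (k + j) ρ.src.length = blk t j ρ.src.length := by
    funext i
    simp only [blk, shift]
    split_ifs <;> first | rfl | omega | (congr 1; omega)
  unfold act
  rw [h1]
  funext i
  simp only [splice, shift]
  split_ifs <;> first | rfl | omega | (congr 1; omega)

lemma st_W {x : List S} {g : U P} {y : List S} (h : Hom x g y) (l r : List S) :
    st (W l r g) = shift l.length (st g) := by
  induction h with
  | refl => rw [map_one, st_one]; funext i; simp [shift]
  | step a ρ b _ _ _ hg ih => rw [hg, map_mul, W_ed, st_ed, st_ed, ih, List.length_append, act_shift]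

lemma Hom.eq_one_of_W {x : List S} {g : U P} {y : List S} (h : Hom x g y) {l r : List S}
    (hW : W l r g = 1) : g = 1 := by
  apply h.eq_one_of_st
  intro i
  have h1 := congrFun (st_W h l r) (l.length + i)
  rw [hW, st_one] at h1
  simpa [shift] using h1.symm

lemma Phi_W_tail {x : List S} {h : U P} {x' : List S} (hh : Hom x h x') (r : List S) (s : St P)
    (i : ℕ) : (Phi (W [] r h) s).1 (x'.length + i) = s.1 (x.length + i) := by
  induction hh generalizing i with
  | refl => simp
  | step a ρ b _ hy hz hg ih =>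
    rw [hg, map_mul, W_ed, map_mul, Equiv.Perm.mul_apply, Phi_ed, ← ih, hy, hz]
    simp only [act, splice, List.length_append, List.nil_append]
    rw [if_neg (by omega), if_neg (by omega)]
    exact congrArg _ (by omega)

/-- The product of the loop groups of two words embeds in the loop group of their product. -/
lemma eq_one_of_prod {x y : List S} {h g : U P} (hh : Hom x h x) (hg : Hom y g y)
    (h1 : W [] y h * W x [] g = 1) : h = 1 ∧ g = 1 := by
  have hg1 : g = 1 := by
    apply hg.eq_one_of_st
    intro i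
    have h2 := Phi_W_tail hh y (Phi (W x [] g) vars) i
    rw [← Equiv.Perm.mul_apply, ← map_mul, h1, map_one] at h2
    have h3 := congrFun (st_W hg x []) (x.length + i)
    unfold st at h3
    rw [h3] at h2
    simpa [shift, vars, st] using h2.symm
  rw [hg1, map_one, mul_one] at h1
  exact ⟨hh.eq_one_of_W h1, hg1⟩

end Pool.Agent.Lib.MP_07d80f_al
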