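import Pool.Agent.Lib.MP_07d80f_al.Inf
import Pool.Agent.Lib.MP_07d80f_al.Cohom

set_option autoImplicit false

namespace Pool.Agent.Lib.MP_07d80f_al

variable {S : Type} {P : SemigroupPresentation S}

/-- The loop group at `x` is trivial. -/
def Triv (P : SemigroupPresentation S) (x : List S) : Prop := ∀ g : U P, Hom x g x → g = 1

lemma triv_nil : Triv P [] := fun _ hg => hg.of_nil.1

lemma Triv.conn {x y : List S} (h : Triv P x) (hxy : Conn P x y) : Triv P y := by
  obtain ⟨γ, hγ⟩ := hxy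
  intro g hg
  have h1 := h _ ((hγ.trans hg).trans hγ.symm)
  rwa [inv_mul_eq_one, eq_comm, mul_eq_right] at h1

lemma Triv.of_append {x y : List S} (h : Triv P (x ++ y)) : Triv P x :=
  fun _ hg => hg.eq_one_of_W (h _ (hg.right y))

lemma exists_cut {a m : List S} (ha : Triv P a) (hm : ¬ Triv P (a ++ m)) :
    ∃ m₁ l m₂, m = m₁ ++ [l] ++ m₂ ∧ Triv P (a ++ m₁) ∧ ¬ Triv P (a ++ m₁ ++ [l]) := by
  induction m generalizing a with
  | nil => exact absurd (by simpa using ha) hm
  | cons l m ih =>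
    by_cases h : Triv P (a ++ [l])
    · obtain ⟨m₁, l', m₂, h1, h2, h3⟩ := ih h (by simpa using hm)
      exact ⟨l :: m₁, l', m₂, by simp [h1], by simpa using h2, by simpa using h3⟩
    · exact ⟨[], l, m, rfl, by simpa using ha, by simpa using h⟩

lemma cut_unique {p p' s s' : List S} {l l' : S} (h : p ++ [l] ++ s = p' ++ [l'] ++ s')
    (h1 : Triv P p) (h2 : ¬ Triv P (p ++ [l])) (h1' : Triv P p') (h2' : ¬ Triv P (p' ++ [l'])) :
    p = p' ∧ l = l' ∧ s = s' := by
  have hl : p.length = p'.length := by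
    by_contra hne
    rcases lt_or_gt_of_ne hne with hlt | hlt
    · obtain ⟨e, he, -⟩ := append_split (a := p ++ [l]) (b := s) (c := p') (d := [l'] ++ s')
        (by simpa using h) (by simpa using hlt)
      exact h2 (Triv.of_append (he ▸ h1'))
    · obtain ⟨e, he, -⟩ := append_split (a := p' ++ [l']) (b := s') (c := p) (d := [l] ++ s)
        (by simpa using h.symm) (by simpa using hlt)
      exact h2' (Triv.of_append (he ▸ h1))
  rw [List.append_assoc, List.append_assoc] at h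
  obtain ⟨e1, e2⟩ := List.append_inj h hl
  simp only [List.singleton_append, List.cons.injEq] at e2
  exact ⟨e1, e2.1, e2.2⟩

/-- A marked point of the universal cover. -/
structure Pt (P : SemigroupPresentation S) (w : List S) {I : Type} (m : I → List S) where
  /-- the path from the base word -/
  g : U P
  /-- left context -/
  a : List S
  /-- the marked middle part -/
  i : I
  /-- right context -/
  b : List S
  hom : Hom w g (a ++ m i ++ b)
  triv : Triv P a
  ntriv : ¬ Triv P (a ++ m i)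

section Cov

variable {w : List S} {I : Type} {m : I → List S}

/-- Marked points are identified along paths in the two contexts. -/
def Pt.Rel (x y : Pt P w m) : Prop :=
  x.i = y.i ∧ ∃ α β : U P, Hom x.a α y.a ∧ Hom x.b β y.b ∧
    y.g = W [] (m x.i ++ y.b) α * W (x.a ++ m x.i) [] β * x.g

lemma tens_swap {a a' b b' : List S} (u : List S) {α β : U P} (hα : Hom a α a') (hβ : Hom b β b') :
    W [] (u ++ b') α * W (a ++ u) [] β = W (a' ++ u) [] β * W [] (u ++ b) α := by
  have h := interchange hα (hβ.left u)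
  simpa only [W_W, List.append_nil] using h

/-- The setoid on marked points. -/
def Pt.setoid (P : SemigroupPresentation S) (w : List S) {I : Type} (m : I → List S) :
    Setoid (Pt P w m) where
  r := Pt.Rel
  iseqv :=
    { refl := fun x => ⟨rfl, 1, 1, Hom.refl, Hom.refl, by simp⟩
      symm := by
        rintro x y ⟨hi, α, β, hα, hβ, hg⟩
        refine ⟨hi.symm, α⁻¹, β⁻¹, hα.symm, hβ.symm, ?_⟩
        rw [hg, tens_swap _ hα hβ, ← hi, map_inv, map_inv]
        group
      trans := by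
        rintro x y z ⟨hi, α, β, hα, hβ, hg⟩ ⟨hi', α', β', hα', hβ', hg'⟩
        refine ⟨hi.trans hi', α' * α, β' * β, hα.trans hα', hβ.trans hβ', ?_⟩
        rw [hg', hg, ← hi, map_mul, map_mul]
        have h := tens_swap (m x.i) hα hβ'
        rw [mul_assoc (W [] (m x.i ++ z.b) α'), mul_assoc (W [] (m x.i ++ z.b) α'),
          mul_assoc (W [] (m x.i ++ z.b) α')]
        congr 1
        rw [← mul_assoc, ← mul_assoc, ← h]
        group }

/-- The quotient of the marked points. -/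
def Cov (P : SemigroupPresentation S) (w : List S) {I : Type} (m : I → List S) :=
  Quotient (Pt.setoid P w m)

/-- The class of a marked point. -/
def Pt.mk' (x : Pt P w m) : Cov P w m := Quotient.mk (Pt.setoid P w m) x

lemma Pt.sound {x y : Pt P w m} (h : x.Rel y) : x.mk' = y.mk' := Quotient.sound h

lemma Pt.exact {x y : Pt P w m} (h : x.mk' = y.mk') : x.Rel y := Quotient.exact h

lemma Cov.exists_rep (v : Cov P w m) : ∃ x : Pt P w m, x.mk' = v := Quotient.exists_rep v

/-- Deck transformations on marked points. -/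
def Pt.smul (h : D P w) (x : Pt P w m) : Pt P w m :=
  ⟨x.g * (h : U P)⁻¹, x.a, x.i, x.b, (Hom.symm h.2).trans x.hom, x.triv, x.ntriv⟩

instance : SMul (D P w) (Cov P w m) where
  smul h := Quotient.map' (s₁ := Pt.setoid P w m) (s₂ := Pt.setoid P w m) (Pt.smul h) (by
    rintro x y ⟨hi, α, β, hα, hβ, hg⟩
    refine ⟨hi, α, β, hα, hβ, ?_⟩
    simp only [Pt.smul]
    rw [hg, mul_assoc])

lemma Pt.smul_mk (h : D P w) (x : Pt P w m) : h • x.mk' = (Pt.smul h x).mk' := rfl

instance : MulAction (D P w) (Cov P w m) where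
  one_smul v := by
    obtain ⟨x, rfl⟩ := v.exists_rep
    rw [Pt.smul_mk]
    simp [Pt.smul]
  mul_smul h h' v := by
    obtain ⟨x, rfl⟩ := v.exists_rep
    simp only [Pt.smul_mk]
    simp [Pt.smul, mul_assoc]

lemma cdLE_stabilizer {R : Type} [CommRing R] (n : ℕ) (x : Pt P w m) (hb : CdLE R (D P x.b) n) :
    CdLE R (MulAction.stabilizer (D P w) x.mk') n := by
  let f : D P x.b →* U P :=
    (MulAut.conj x.g⁻¹).toMonoidHom.comp ((W (x.a ++ m x.i) []).comp (D P x.b).subtype)
  have hf : Function.Injective f := by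
    rw [injective_iff_map_eq_one]
    intro β hβ
    have h1 : W (x.a ++ m x.i) [] (β : U P) = 1 :=
      (MulAut.conj x.g⁻¹).injective (hβ.trans (map_one _).symm)
    exact Subtype.ext (Hom.eq_one_of_W β.2 h1)
  let j : MulAction.stabilizer (D P w) x.mk' →* U P :=
    (D P w).subtype.comp (MulAction.stabilizer (D P w) x.mk').subtype
  have hj : ∀ h, j h ∈ f.range := by
    intro h
    have h1 : (Pt.smul (h : D P w) x).mk' = x.mk' := h.2
    obtain ⟨-, α, β, hα, hβ, hg⟩ := Pt.exact h1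
    have hα1 : α = 1 := x.triv _ hα
    refine ⟨⟨β, hβ⟩, ?_⟩
    simp only [Pt.smul, hα1, map_one, one_mul] at hg
    change x.g⁻¹ * W (x.a ++ m x.i) [] β * x.g⁻¹⁻¹ = ((h : D P w) : U P)
    rw [← mul_assoc, eq_mul_inv_iff_mul_eq] at hg
    rw [inv_inv, mul_assoc, ← hg, inv_mul_cancel_left]
  refine CdLE.of_injective (j.codRestrict f.range hj) ?_
    (CdLE.of_mulEquiv (MonoidHom.ofInjective hf).symm hb)
  intro h h' hh
  have := congrArg Subtype.val hh
  exact Subtype.ext (Subtype.ext this)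

end Cov

section Tree

variable {w : List S}

/-- Vertices of the tree. -/
abbrev Vx (P : SemigroupPresentation S) (w : List S) := Cov P w (fun l : S => [l])

/-- Edges of the tree. -/
abbrev Ex (P : SemigroupPresentation S) (w : List S) := Cov P w (fun r : P.rel => r.1.1)

lemma exists_pt (hw : ¬ Triv P w) {g : U P} {x : List S} (h : Hom w g x) :
    ∃ y : Pt P w (fun l : S => [l]), y.g = g ∧ x = y.a ++ [y.i] ++ y.b := by
  have hx : ¬ Triv P ([] ++ x) := fun hx => hw (Triv.conn hx ⟨_, h.symm⟩)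
  obtain ⟨p, l, s, h1, h2, h3⟩ := exists_cut triv_nil hx
  exact ⟨⟨g, p, l, s, h1 ▸ h, h2, h3⟩, rfl, h1⟩

/-- The vertex of the tree containing a given vertex of the universal cover. -/
noncomputable def vtx (hw : ¬ Triv P w) {g : U P} {x : List S} (h : Hom w g x) : Vx P w :=
  (exists_pt hw h).choose.mk'

lemma vtx_eq (hw : ¬ Triv P w) {g : U P} {x : List S} (h : Hom w g x)
    (y : Pt P w (fun l : S => [l])) (hg : y.g = g) (hx : x = y.a ++ [y.i] ++ y.b) :
    vtx hw h = y.mk' := by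
  unfold vtx
  obtain ⟨h1, h2⟩ := (exists_pt hw h).choose_spec
  generalize (exists_pt hw h).choose = z at h1 h2
  obtain ⟨e1, e2, e3⟩ := cut_unique (h2.symm.trans hx) z.triv z.ntriv y.triv y.ntriv
  obtain ⟨g₁, a₁, i₁, b₁, _, _, _⟩ := y
  obtain ⟨g₂, a₂, i₂, b₂, _, _, _⟩ := z
  simp only at e1 e2 e3 hg h1
  subst e1 e2 e3 hg h1
  rfl

lemma vtx_tens (hw : ¬ Triv P w) {a a' b b' u x x' : List S} {α β g g' : U P} (ha : Triv P a)
    (hu : ¬ Triv P (a ++ u)) (hα : Hom a α a') (hβ : Hom b β b') (h : Hom w g x)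
    (h' : Hom w g' x') (hx : x = a ++ u ++ b) (hx' : x' = a' ++ u ++ b')
    (hg : g' = W [] (u ++ b') α * W (a ++ u) [] β * g) : vtx hw h = vtx hw h' := by
  obtain ⟨u₁, l, u₂, h1, h2, h3⟩ := exists_cut ha hu
  have h2' : Triv P (a' ++ u₁) := h2.conn ⟨_, hα.right u₁⟩
  have h3' : ¬ Triv P (a' ++ u₁ ++ [l]) := fun h4 =>
    h3 (h4.conn (Conn.symm ⟨_, (hα.right u₁).right [l]⟩))
  rw [vtx_eq hw h ⟨g, a ++ u₁, l, u₂ ++ b, h.cast rfl rfl (by simp [hx, h1]), h2, h3⟩ rfl
      (by simp [hx, h1]),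
    vtx_eq hw h' ⟨g', a' ++ u₁, l, u₂ ++ b', h'.cast rfl rfl (by simp [hx', h1]), h2', h3'⟩ rfl
      (by simp [hx', h1])]
  refine Pt.sound ⟨rfl, W [] u₁ α, W u₂ [] β, hα.right u₁, hβ.left u₂, ?_⟩
  simp [hg, h1, W_W]

lemma vtx_congr (hw : ¬ Triv P w) {g g' : U P} {x x' : List S} (h : Hom w g x) (h' : Hom w g' x')
    (hg : g = g') (hx : x = x') : vtx hw h = vtx hw h' := by
  subst hg hx; rfl

lemma vtx_nonleft (hw : ¬ Triv P w) {a b x x' : List S} {ρ : SRel P} {g g' : U P}
    (hn : ¬ (Triv P a ∧ ¬ Triv P (a ++ ρ.src))) (h : Hom w g x) (h' : Hom w g' x')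
    (hx : x = a ++ ρ.src ++ b) (hx' : x' = a ++ ρ.tgt ++ b) (hg : g' = ed a ρ b * g) :
    vtx hw h = vtx hw h' := by
  by_cases ha : Triv P a
  · have h1 : Triv P (a ++ ρ.src) := by
      by_contra h1; exact hn ⟨ha, h1⟩
    have h2 : ¬ Triv P (a ++ ρ.src ++ b) := fun h2 => hw (h2.conn ⟨_, hx ▸ h.symm⟩)
    obtain ⟨b₁, l, b₂, e1, e2, e3⟩ := exists_cut h1 h2
    exact vtx_tens hw e2 e3 (Hom.edge a ρ b₁) (Hom.refl (x := b₂)) h h' (by simp [hx, e1])
      (by simp [hx', e1]) (by simp [hg, e1, W_ed])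
  · obtain ⟨p, l, a', e1, e2, e3⟩ := exists_cut triv_nil (a := []) (m := a) (by simpa using ha)
    exact vtx_tens hw e2 e3 (Hom.refl (x := [] ++ p)) (Hom.edge a' ρ b) h h' (by simp [hx, e1])
      (by simp [hx', e1]) (by simp [hg, e1, W_ed])

lemma smul_vtx (hw : ¬ Triv P w) (k : D P w) {g : U P} {x : List S} (h : Hom w g x) :
    k • vtx hw h = vtx hw ((Hom.symm k.2).trans h) := by
  obtain ⟨y, h1, h2⟩ := exists_pt hw h
  rw [vtx_eq hw h y h1 h2, Pt.smul_mk, vtx_eq hw _ (Pt.smul k y) (by simp [Pt.smul, h1]) h2]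

lemma Pt.hom_tgt (x : Pt P w (fun r : P.rel => r.1.1)) :
    Hom w (gen x.a x.i x.b * x.g) (x.a ++ x.i.1.2 ++ x.b) :=
  x.hom.trans (Hom.edge x.a ⟨x.i, true⟩ x.b)

/-- Source of an edge of the tree. -/
noncomputable def srcV (hw : ¬ Triv P w) : Ex P w → Vx P w :=
  Quotient.lift (s := Pt.setoid P w _) (fun x => vtx hw x.hom) (by
    rintro x y ⟨hi, α, β, hα, hβ, hg⟩
    exact vtx_tens hw x.triv x.ntriv hα hβ x.hom y.hom rfl (by rw [hi]) hg)

/-- Target of an edge of the tree. -/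
noncomputable def tgtV (hw : ¬ Triv P w) : Ex P w → Vx P w :=
  Quotient.lift (s := Pt.setoid P w _) (fun x => vtx hw x.hom_tgt) (by
    rintro x y ⟨hi, α, β, hα, hβ, hg⟩
    have hn : ¬ Triv P (x.a ++ x.i.1.2) := fun h => x.ntriv (h.conn ⟨_, by
      simpa using Hom.edge x.a ⟨x.i, false⟩ []⟩)
    refine vtx_tens hw x.triv hn hα hβ x.hom_tgt y.hom_tgt rfl (by rw [hi]) ?_
    have h := ed_nat ⟨x.i, true⟩ hα hβ
    simp only [ed_true, SRel.src_true, SRel.tgt_true] at h
    rw [hg, ← hi, ← mul_assoc, h, mul_assoc])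

lemma srcV_mk (hw : ¬ Triv P w) (x : Pt P w (fun r : P.rel => r.1.1)) :
    srcV hw x.mk' = vtx hw x.hom := rfl

lemma tgtV_mk (hw : ¬ Triv P w) (x : Pt P w (fun r : P.rel => r.1.1)) :
    tgtV hw x.mk' = vtx hw x.hom_tgt := rfl

lemma srcV_smul (hw : ¬ Triv P w) (k : D P w) (e : Ex P w) : srcV hw (k • e) = k • srcV hw e := by
  obtain ⟨x, rfl⟩ := e.exists_rep
  rw [Pt.smul_mk, srcV_mk, srcV_mk, smul_vtx]
  rfl

lemma tgtV_smul (hw : ¬ Triv P w) (k : D P w) (e : Ex P w) : tgtV hw (k • e) = k • tgtV hw e := by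
  obtain ⟨x, rfl⟩ := e.exists_rep
  rw [Pt.smul_mk, tgtV_mk, tgtV_mk, smul_vtx]
  exact vtx_congr hw _ _ (by simp [Pt.smul, mul_assoc]) rfl

lemma tree_conn (hw : ¬ Triv P w) (M : Type) (f : Vx P w → M)
    (hf : ∀ e, f (tgtV hw e) = f (srcV hw e)) (v : Vx P w) : f v = f (vtx hw Hom.refl) := by
  have key : ∀ (g : U P) (x : List S) (h : Hom w g x), f (vtx hw h) = f (vtx hw Hom.refl) := by
    intro g x h
    induction h with
    | refl => rfl
    | @step g g' y z a ρ b h hy hz hg ih =>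
      rw [← ih]
      by_cases hn : Triv P a ∧ ¬ Triv P (a ++ ρ.src)
      · obtain ⟨r, _ | _⟩ := ρ
        · have hn' : ¬ Triv P (a ++ r.1.1) := fun h => hn.2 (h.conn ⟨_, by
            simpa using Hom.edge a ⟨r, true⟩ []⟩)
          have h1 := hf (Pt.mk' ⟨g', a, r, b,
            Hom.step a ⟨r, false⟩ b h hy rfl hg, hn.1, hn'⟩)
          rw [tgtV_mk, srcV_mk] at h1
          exact (congrArg f (vtx_congr hw _ _ rfl hz)).trans
            (h1.symm.trans (congrArg f (vtx_congr hw _ _ (by simp [hg]) hy.symm)))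
        · have h1 := hf (Pt.mk' ⟨g, a, r, b, hy ▸ h, hn.1, hn.2⟩)
          rw [tgtV_mk, srcV_mk] at h1
          exact (congrArg f (vtx_congr hw _ _ hg hz)).trans
            (h1.trans (congrArg f (vtx_congr hw _ _ rfl hy.symm)))
      · rw [vtx_nonleft hw hn h _ hy hz hg]
  obtain ⟨x, rfl⟩ := v.exists_rep
  rw [← vtx_eq hw x.hom x rfl rfl, key]

section Surj

variable {M : Type} [AddCommGroup M] (φ : Ex P w → M)

open Classical in
/-- The jump when crossing an edge. -/
noncomputable def jump (g : U P) (a : List S) (r : P.rel) (b : List S) : M :=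
  if h : Hom w g (a ++ r.1.1 ++ b) ∧ Triv P a ∧ ¬ Triv P (a ++ r.1.1) then
    φ (Pt.mk' ⟨g, a, r, b, h.1, h.2.1, h.2.2⟩) else 0

lemma jump_tens {g g' α β : U P} {a a' b b' : List S} (r : P.rel) (hα : Hom a α a')
    (hβ : Hom b β b') (hg : g' = W [] (r.1.1 ++ b') α * W (a ++ r.1.1) [] β * g) :
    jump φ g a r b = jump φ g' a' r b' := by
  have hT : Hom (a ++ r.1.1 ++ b) (W [] (r.1.1 ++ b') α * W (a ++ r.1.1) [] β)
      (a' ++ r.1.1 ++ b') :=
    (hβ.left _).trans ((hα.right (r.1.1 ++ b')).cast (by simp) rfl (by simp))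
  have hiff : (Hom w g (a ++ r.1.1 ++ b) ∧ Triv P a ∧ ¬ Triv P (a ++ r.1.1)) ↔
      (Hom w g' (a' ++ r.1.1 ++ b') ∧ Triv P a' ∧ ¬ Triv P (a' ++ r.1.1)) := by
    constructor
    · rintro ⟨h1, h2, h3⟩
      exact ⟨hg ▸ h1.trans hT, h2.conn ⟨_, hα⟩, fun h => h3 (h.conn ⟨_, (hα.right _).symm⟩)⟩
    · rintro ⟨h1, h2, h3⟩
      exact ⟨(h1.trans hT.symm).cast rfl (by rw [hg, inv_mul_cancel_left]) rfl,
        h2.conn ⟨_, hα.symm⟩, fun h => h3 (h.conn ⟨_, hα.right _⟩)⟩
  unfold jump
  by_cases h : Hom w g (a ++ r.1.1 ++ b) ∧ Triv P a ∧ ¬ Triv P (a ++ r.1.1)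
  · rw [dif_pos h, dif_pos (hiff.1 h)]
    exact congrArg φ (Pt.sound ⟨rfl, α, β, hα, hβ, hg⟩)
  · rw [dif_neg h, dif_neg (fun h' => h (hiff.2 h'))]

/-- The affine action recording the jumps. -/
noncomputable def Theta : U P →* Equiv.Perm (U P × M) :=
  liftU (fun a r b =>
    { toFun := fun z => (gen a r b * z.1, z.2 + jump φ z.1 a r b)
      invFun := fun z => ((gen a r b)⁻¹ * z.1, z.2 - jump φ ((gen a r b)⁻¹ * z.1) a r b)
      left_inv := fun z => by simp
      right_inv := fun z => by simp }) (by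
    intro a b c r s
    ext z
    · simp only [Equiv.Perm.mul_apply, Equiv.coe_fn_mk]
      rw [← mul_assoc, ← mul_assoc, gen_square]
    · simp only [Equiv.Perm.mul_apply, Equiv.coe_fn_mk]
      rw [jump_tens φ (g := z.1) (g' := gen (a ++ r.1.1 ++ b) s c * z.1) (a := a) (a' := a)
          (b := b ++ s.1.1 ++ c) (b' := b ++ s.1.2 ++ c) r Hom.refl
          (Hom.edge b ⟨s, true⟩ c) (by simp),
        jump_tens φ (g := z.1) (g' := gen a r (b ++ s.1.1 ++ c) * z.1) (a := a ++ r.1.1 ++ b)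
          (a' := a ++ r.1.2 ++ b) (b := c) (b' := c) s (Hom.edge a ⟨r, true⟩ b) Hom.refl
          (by simp)]
      abel)

lemma Theta_gen (a : List S) (r : P.rel) (b : List S) (z : U P × M) :
    Theta φ (gen a r b) z = (gen a r b * z.1, z.2 + jump φ z.1 a r b) := by
  rw [Theta, liftU_gen]
  rfl

lemma Theta_fst (h : U P) (z : U P × M) : (Theta φ h z).1 = h * z.1 := by
  let K : Subgroup (U P) :=
    { carrier := {h | ∀ z, (Theta φ h z).1 = h * z.1}
      one_mem' := fun z => by simp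
      mul_mem' := fun {h h'} hh hh' z => by
        rw [map_mul, Equiv.Perm.mul_apply, hh, hh', mul_assoc]
      inv_mem' := fun {h} hh z => by
        have h1 := hh (Theta φ h⁻¹ z)
        rw [← Equiv.Perm.mul_apply, ← map_mul, mul_inv_cancel, map_one, Equiv.Perm.one_apply] at h1
        rw [h1, inv_mul_cancel_left] }
  exact PresentedGroup.generated_by _ K
    (fun e z => by
      change (Theta φ (gen e.a e.r e.b) z).1 = gen e.a e.r e.b * z.1
      rw [Theta_gen]) h z

/-- The primitive of the jumps. -/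
noncomputable def prim (g : U P) : M := (Theta φ g (1, 0)).2

lemma prim_gen (a : List S) (r : P.rel) (b : List S) (g : U P) :
    prim φ (gen a r b * g) = prim φ g + jump φ g a r b := by
  unfold prim
  rw [map_mul, Equiv.Perm.mul_apply, Theta_gen, Theta_fst, mul_one]

lemma prim_nonleft {a b : List S} {ρ : SRel P} (hn : ¬ (Triv P a ∧ ¬ Triv P (a ++ ρ.src)))
    (g : U P) : prim φ (ed a ρ b * g) = prim φ g := by
  obtain ⟨r, _ | _⟩ := ρ
  · have h := prim_gen φ a r b ((gen a r b)⁻¹ * g)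
    rw [mul_inv_cancel_left, jump, dif_neg, add_zero] at h
    · exact h.symm
    · rintro ⟨-, h1, h2⟩
      exact hn ⟨h1, fun h3 => h2 (h3.conn ⟨_, by simpa using Hom.edge a ⟨r, false⟩ []⟩)⟩
  · rw [ed_true, prim_gen, jump, dif_neg (fun h => hn h.2), add_zero]

lemma prim_W_right {p p' : List S} (hp : Triv P p) {α : U P} (hα : Hom p α p') (r : List S)
    (g : U P) : prim φ (W [] r α * g) = prim φ g := by
  induction hα with
  | refl => simp
  | step a ρ b h hy _ hg ih =>
    have h1 : Triv P (a ++ ρ.src) := Triv.of_append (hy ▸ hp.conn ⟨_, h⟩)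
    rw [hg, map_mul, W_ed, mul_assoc, prim_nonleft φ (fun h2 => h2.2 (by simpa using h1)), ih]

lemma prim_W_left {q s s' : List S} (hq : ¬ Triv P q) {β : U P} (hβ : Hom s β s')
    (g : U P) : prim φ (W q [] β * g) = prim φ g := by
  induction hβ with
  | refl => simp
  | step a ρ b h hy _ hg ih =>
    rw [hg, map_mul, W_ed, mul_assoc, prim_nonleft φ (fun h2 => hq h2.1.of_append), ih]

lemma tree_surj (hw : ¬ Triv P w) :
    ∃ f : Vx P w → M, ∀ e, f (tgtV hw e) - f (srcV hw e) = φ e := by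
  let f : Vx P w → M := Quotient.lift (s := Pt.setoid P w _) (fun x => prim φ x.g) (by
    rintro x y ⟨-, α, β, hα, hβ, hg⟩
    rw [hg, mul_assoc, prim_W_right φ x.triv hα, prim_W_left φ x.ntriv hβ])
  have hf : ∀ (g : U P) (x : List S) (h : Hom w g x), f (vtx hw h) = prim φ g := by
    intro g x h
    obtain ⟨y, h1, h2⟩ := exists_pt hw h
    rw [vtx_eq hw h y h1 h2, ← h1]
    rfl
  refine ⟨f, fun e => ?_⟩
  obtain ⟨x, rfl⟩ := e.exists_rep
  rw [tgtV_mk, srcV_mk, hf, hf, prim_gen, add_sub_cancel_left, jump,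
    dif_pos ⟨x.hom, x.triv, x.ntriv⟩]

end Surj

end Tree

/-- The main inequality. -/
theorem cdLE_of_not_hasZ {R : Type} [CommRing R] (n : ℕ) :
    ∀ w : List S, ¬ HasZ P w (n + 1) → CdLE R (D P w) n := by
  have htriv : ∀ (w : List S) (n : ℕ), Triv P w → CdLE R (D P w) n := by
    intro w n hw
    have : Subsingleton (D P w) :=
      ⟨fun g h => Subtype.ext ((hw _ g.2).trans (hw _ h.2).symm)⟩
    exact CdLE.of_subsingleton n
  have hne : ∀ q : List S, ¬ Triv P q → ∃ g : U P, Hom q g q ∧ g ≠ 1 := by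
    intro q hq
    unfold Triv at hq
    push Not at hq
    exact hq
  induction n with
  | zero =>
    intro w hw
    apply htriv
    by_contra h
    exact hw (by simpa using HasZ.cons (hne w h) (hasZ_zero []))
  | succ n ih =>
    intro w hw
    by_cases ht : Triv P w
    · exact htriv w _ ht
    have hst : ∀ {I : Type} {m : I → List S} (v : Cov P w m),
        CdLE R (MulAction.stabilizer (D P w) v) n := by
      intro I m v
      obtain ⟨x, rfl⟩ := v.exists_rep
      refine cdLE_stabilizer n x (ih _ fun hz => hw ?_)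
      exact (HasZ.cons (hne _ x.ntriv) hz).conn ⟨_, x.hom.symm⟩
    exact CdLE.of_tree (srcV ht) (tgtV ht) (srcV_smul ht) (tgtV_smul ht) (vtx ht Hom.refl)
      (tree_conn ht) (fun M _ φ => tree_surj φ ht) n hst hst

end Pool.Agent.Lib.MP_07d80f_al
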