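import Pool.Agent.Lib.MP_07d80f_al.Defs

set_option autoImplicit false

namespace Pool.Agent.Lib.MP_07d80f_al

variable {S : Type} {P : SemigroupPresentation S}

/-- The square relators, in the free group on all edges. -/
def sqRels (P : SemigroupPresentation S) : Set (FreeGroup (Edge P)) :=
  {x | ∃ (a b c : List S) (r s : P.rel),
    x = FreeGroup.of (⟨a ++ r.1.2 ++ b, s, c⟩ : Edge P) * FreeGroup.of ⟨a, r, b ++ s.1.1 ++ c⟩ *
      (FreeGroup.of (⟨a, r, b ++ s.1.2 ++ c⟩ : Edge P) * FreeGroup.of ⟨a ++ r.1.1 ++ b, s, c⟩)⁻¹}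

/-- The universal group of the Squier complex: generated by edges, modulo squares. -/
abbrev U (P : SemigroupPresentation S) := PresentedGroup (sqRels P)

/-- The generator attached to an edge. -/
def gen (a : List S) (r : P.rel) (b : List S) : U P := PresentedGroup.of ⟨a, r, b⟩

lemma gen_square (a b c : List S) (r s : P.rel) :
    gen (a ++ r.1.2 ++ b) s c * gen a r (b ++ s.1.1 ++ c) =
      gen a r (b ++ s.1.2 ++ c) * gen (a ++ r.1.1 ++ b) s c := by
  have h := PresentedGroup.mk_eq_mk_of_mul_inv_mem (rels := sqRels P) ⟨a, b, c, r, s, rfl⟩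
  simpa [gen, PresentedGroup.of] using h

/-- Universal property of `U P`. -/
def liftU {H : Type} [Group H] (f : List S → P.rel → List S → H)
    (hf : ∀ (a b c : List S) (r s : P.rel),
      f (a ++ r.1.2 ++ b) s c * f a r (b ++ s.1.1 ++ c) =
        f a r (b ++ s.1.2 ++ c) * f (a ++ r.1.1 ++ b) s c) : U P →* H :=
  PresentedGroup.toGroup (f := fun e : Edge P => f e.a e.r e.b) (by
    rintro _ ⟨a, b, c, r, s, rfl⟩
    simp only [map_mul, map_inv, FreeGroup.lift_apply_of]
    rw [hf, mul_inv_cancel])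

@[simp] lemma liftU_gen {H : Type} [Group H] (f : List S → P.rel → List S → H) (hf)
    (a : List S) (r : P.rel) (b : List S) : liftU f hf (gen a r b) = f a r b :=
  PresentedGroup.toGroup.of _

lemma U_ext {H : Type} [Group H] {φ ψ : U P →* H}
    (h : ∀ a r b, φ (gen a r b) = ψ (gen a r b)) : φ = ψ :=
  PresentedGroup.ext fun e => h e.a e.r e.b

/-- Oriented relations. -/
structure SRel (P : SemigroupPresentation S) where
  /-- the relation -/
  r : P.rel
  /-- the orientation -/
  pos : Bool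

namespace SRel

/-- source word -/
def src (ρ : SRel P) : List S := if ρ.pos then ρ.r.1.1 else ρ.r.1.2
/-- target word -/
def tgt (ρ : SRel P) : List S := if ρ.pos then ρ.r.1.2 else ρ.r.1.1
/-- opposite orientation -/
def bar (ρ : SRel P) : SRel P := ⟨ρ.r, !ρ.pos⟩

@[simp] lemma bar_bar (ρ : SRel P) : ρ.bar.bar = ρ := by simp [bar]
@[simp] lemma src_bar (ρ : SRel P) : ρ.bar.src = ρ.tgt := by
  rcases ρ with ⟨r, _ | _⟩ <;> simp [bar, src, tgt]
@[simp] lemma tgt_bar (ρ : SRel P) : ρ.bar.tgt = ρ.src := by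
  rcases ρ with ⟨r, _ | _⟩ <;> simp [bar, src, tgt]
lemma src_ne_nil (ρ : SRel P) : ρ.src ≠ [] := by
  rcases ρ with ⟨r, _ | _⟩
  · exact P.right_ne_nil _ r.2
  · exact P.left_ne_nil _ r.2
lemma tgt_ne_nil (ρ : SRel P) : ρ.tgt ≠ [] := by
  rw [← src_bar]; exact src_ne_nil _
lemma src_pos (ρ : SRel P) : 0 < ρ.src.length := List.length_pos_iff.2 ρ.src_ne_nil
lemma tgt_pos (ρ : SRel P) : 0 < ρ.tgt.length := List.length_pos_iff.2 ρ.tgt_ne_nil
@[simp] lemma src_true (r : P.rel) : (⟨r, true⟩ : SRel P).src = r.1.1 := rfl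
@[simp] lemma tgt_true (r : P.rel) : (⟨r, true⟩ : SRel P).tgt = r.1.2 := rfl
@[simp] lemma src_false (r : P.rel) : (⟨r, false⟩ : SRel P).src = r.1.2 := rfl
@[simp] lemma tgt_false (r : P.rel) : (⟨r, false⟩ : SRel P).tgt = r.1.1 := rfl

end SRel

/-- The element of `U P` attached to an oriented edge. -/
def ed (a : List S) (ρ : SRel P) (b : List S) : U P :=
  if ρ.pos then gen a ρ.r b else (gen a ρ.r b)⁻¹

@[simp] lemma ed_true (a : List S) (r : P.rel) (b : List S) : ed a ⟨r, true⟩ b = gen a r b := rfl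
@[simp] lemma ed_false (a : List S) (r : P.rel) (b : List S) :
    ed a ⟨r, false⟩ b = (gen a r b)⁻¹ := rfl

lemma ed_bar (a : List S) (ρ : SRel P) (b : List S) : ed a ρ.bar b = (ed a ρ b)⁻¹ := by
  rcases ρ with ⟨r, _ | _⟩ <;> simp [SRel.bar]

lemma ed_square (a b c : List S) (ρ σ : SRel P) :
    ed (a ++ ρ.tgt ++ b) σ c * ed a ρ (b ++ σ.src ++ c) =
      ed a ρ (b ++ σ.tgt ++ c) * ed (a ++ ρ.src ++ b) σ c := by
  have h := gen_square a b c ρ.r σ.r
  rcases ρ with ⟨r, _ | _⟩ <;> rcases σ with ⟨s, _ | _⟩ <;>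
    simp only [ed_true, ed_false, SRel.src_true, SRel.tgt_true, SRel.src_false,
      SRel.tgt_false] at h ⊢
  · rw [← mul_inv_rev, ← mul_inv_rev, h]
  · rw [mul_inv_eq_iff_eq_mul, mul_assoc, h, inv_mul_cancel_left]
  · rw [inv_mul_eq_iff_eq_mul, ← mul_assoc, h, mul_inv_cancel_right]
  · exact h

/-- `Hom x g y`: the element `g` is represented by an edge path from `x` to `y`. -/
inductive Hom (x : List S) : U P → List S → Prop
  | refl : Hom x 1 x
  | step {g g' : U P} {y z : List S} (a : List S) (ρ : SRel P) (b : List S) :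
      Hom x g y → y = a ++ ρ.src ++ b → z = a ++ ρ.tgt ++ b → g' = ed a ρ b * g → Hom x g' z

namespace Hom

lemma edge (a : List S) (ρ : SRel P) (b : List S) :
    Hom (a ++ ρ.src ++ b) (ed a ρ b) (a ++ ρ.tgt ++ b) :=
  Hom.step a ρ b Hom.refl rfl rfl (mul_one _).symm

lemma trans {x y z : List S} {g h : U P} (hg : Hom x g y) (hh : Hom y h z) : Hom x (h * g) z := by
  induction hh with
  | refl => rwa [one_mul]
  | step a ρ b _ hy hz hg' ih => exact Hom.step a ρ b ih hy hz (by rw [hg', mul_assoc])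

lemma symm {x y : List S} {g : U P} (hg : Hom x g y) : Hom y g⁻¹ x := by
  induction hg with
  | refl => rw [inv_one]; exact Hom.refl
  | step a ρ b _ hy hz hg' ih =>
    have h1 := edge a ρ.bar b
    rw [SRel.src_bar, SRel.tgt_bar, ← hy, ← hz, ed_bar] at h1
    rw [hg', mul_inv_rev]
    exact h1.trans ih

lemma cast {x y x' y' : List S} {g g' : U P} (hg : Hom x g y) (hx : x = x') (hg' : g = g')
    (hy : y = y') : Hom x' g' y' := by
  subst hx hg' hy; exact hg

lemma of_nil {y : List S} {g : U P} (hg : Hom [] g y) : g = 1 ∧ y = [] := by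
  induction hg with
  | refl => exact ⟨rfl, rfl⟩
  | step a ρ b _ hy _ _ ih =>
    have h := ih.2
    rw [hy] at h
    simp [ρ.src_ne_nil] at h

lemma ne_nil {x y : List S} {g : U P} (hg : Hom x g y) (hx : x ≠ []) : y ≠ [] := by
  rintro rfl
  exact hx hg.symm.of_nil.2

end Hom

/-- The group of loops at `x`, as a subgroup of the universal group. -/
def D (P : SemigroupPresentation S) (x : List S) : Subgroup (U P) where
  carrier := {g | Hom x g x}
  one_mem' := Hom.refl
  mul_mem' hg hh := Hom.trans hh hg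
  inv_mem' hg := Hom.symm hg

@[simp] lemma mem_D {x : List S} {g : U P} : g ∈ D P x ↔ Hom x g x := Iff.rfl

/-- Equality of words modulo the presentation. -/
def Conn (P : SemigroupPresentation S) (x y : List S) : Prop := ∃ g : U P, Hom x g y

lemma Conn.refl (x : List S) : Conn P x x := ⟨1, Hom.refl⟩
lemma Conn.symm {x y : List S} (h : Conn P x y) : Conn P y x :=
  let ⟨_, hg⟩ := h; ⟨_, hg.symm⟩
lemma Conn.trans {x y z : List S} (h : Conn P x y) (h' : Conn P y z) : Conn P x z :=
  let ⟨_, hg⟩ := h; let ⟨_, hg'⟩ := h'; ⟨_, hg.trans hg'⟩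

/-- Whiskering by a left and a right context. -/
def W (l r : List S) : U P →* U P :=
  liftU (fun a s b => gen (l ++ a) s (b ++ r)) (by
    intro a b c s t
    have h := gen_square (l ++ a) b (c ++ r) s t
    simpa only [List.append_assoc] using h)

@[simp] lemma W_gen (l r a : List S) (s : P.rel) (b : List S) :
    W l r (gen a s b) = gen (l ++ a) s (b ++ r) := liftU_gen _ _ _ _ _

lemma W_ed (l r a : List S) (ρ : SRel P) (b : List S) :
    W l r (ed a ρ b) = ed (l ++ a) ρ (b ++ r) := by
  rcases ρ with ⟨s, _ | _⟩ <;> simp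

lemma W_W (l r l' r' : List S) (g : U P) : W l r (W l' r' g) = W (l ++ l') (r' ++ r) g := by
  have : (W l r).comp (W l' r') = (W (l ++ l') (r' ++ r) : U P →* U P) :=
    U_ext fun a s b => by simp
  exact DFunLike.congr_fun this g

@[simp] lemma W_nil (g : U P) : W [] [] g = g := by
  have : (W [] [] : U P →* U P) = MonoidHom.id _ := U_ext fun a s b => by simp
  exact DFunLike.congr_fun this g

lemma Hom.whisker {x y : List S} {g : U P} (hg : Hom x g y) (l r : List S) :
    Hom (l ++ x ++ r) (W l r g) (l ++ y ++ r) := by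
  induction hg with
  | refl => rw [map_one]; exact Hom.refl
  | step a ρ b _ hy hz hg' ih =>
    exact Hom.step (l ++ a) ρ (b ++ r) ih (by simp [hy]) (by simp [hz])
      (by rw [hg', map_mul, W_ed])

lemma Hom.left {x y : List S} {g : U P} (hg : Hom x g y) (l : List S) :
    Hom (l ++ x) (W l [] g) (l ++ y) := by simpa using hg.whisker l []

lemma Hom.right {x y : List S} {g : U P} (hg : Hom x g y) (r : List S) :
    Hom (x ++ r) (W [] r g) (y ++ r) := by simpa using hg.whisker [] r

lemma Conn.left {x y : List S} (h : Conn P x y) (l : List S) : Conn P (l ++ x) (l ++ y) :=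
  let ⟨_, hg⟩ := h; ⟨_, hg.left l⟩

lemma Conn.right {x y : List S} (h : Conn P x y) (r : List S) : Conn P (x ++ r) (y ++ r) :=
  let ⟨_, hg⟩ := h; ⟨_, hg.right r⟩

/-- Naturality of an edge with respect to paths in its right context. -/
lemma ed_nat_right (a : List S) (ρ : SRel P) {y y' : List S} {g : U P} (hg : Hom y g y') :
    ed a ρ y' * W (a ++ ρ.src) [] g = W (a ++ ρ.tgt) [] g * ed a ρ y := by
  induction hg with
  | refl => simp
  | step c σ d _ hy hz hg' ih =>
    have h := ed_square a c d ρ σ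
    rw [hg', map_mul, map_mul, W_ed, W_ed, hz, List.append_nil, ← mul_assoc, ← h, mul_assoc,
      ← hy, ih, mul_assoc]

/-- The interchange law. -/
lemma interchange {x x' y y' : List S} {h g : U P} (hh : Hom x h x') (hg : Hom y g y') :
    W [] y' h * W x [] g = W x' [] g * W [] y h := by
  induction hh with
  | refl => simp
  | step a ρ b _ hy hz hg' ih =>
    have h1 := ed_nat_right a ρ (hg.left b)
    rw [W_W, W_W] at h1
    rw [hg', map_mul, map_mul, W_ed, W_ed, mul_assoc, ih, hy, hz, List.nil_append, ← mul_assoc,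
      ← mul_assoc]
    congr 1

/-- Naturality of an edge with respect to paths in both contexts. -/
lemma ed_nat {a a' b b' : List S} (ρ : SRel P) {α β : U P} (hα : Hom a α a') (hβ : Hom b β b') :
    ed a' ρ b' * (W [] (ρ.src ++ b') α * W (a ++ ρ.src) [] β) =
      W [] (ρ.tgt ++ b') α * W (a ++ ρ.tgt) [] β * ed a ρ b := by
  have h1 := interchange hα (Hom.edge [] ρ b')
  rw [W_ed] at h1
  rw [W_ed] at h1
  simp only [List.append_nil, List.nil_append] at h1
  rw [← mul_assoc, ← h1, mul_assoc, ed_nat_right a ρ hβ, mul_assoc]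

end Pool.Agent.Lib.MP_07d80f_al
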